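import Mathlib

/-!
# Definitions for problem MP_3e50fa_lc

The cardinal `prop_(T)` (the least size of an inclusion-maximal algebra of Borel subsets of the
Cantor space with property (T)) and the Grothendieck number `gr` (the least size of an infinite
Boolean algebra with the Grothendieck property).
-/

open MeasureTheory Cardinal Topology Filter

namespace Pool.Agent.Lib.MP_3e50fa_lc

/-! ### Property (T) and the cardinal `prop_(T)` -/

/-- The Cantor space `2^ℕ`, with the product topology; its measurable sets are its Borel sets. -/
abbrev Cantor : Type := ℕ → Bool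

/-- The fair coin measure on `{0, 1}`. -/
noncomputable def coin : Measure Bool :=
  (2⁻¹ : ENNReal) • (Measure.dirac false + Measure.dirac true)

/-- The fair coin measure is a probability measure. -/
instance instIsProbabilityMeasureCoin : IsProbabilityMeasure coin := by
  constructor
  simp only [coin, Measure.smul_apply, Measure.add_apply, measure_univ, smul_eq_mul]
  rw [one_add_one_eq_two]
  exact ENNReal.inv_mul_cancel (by simp) (by simp)

/-- The standard product measure `λ` on the Cantor space. -/
noncomputable def lam : Measure Cantor := Measure.infinitePi fun _ => coin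

/-- The set `V_m^i = {x : x(m) = i}`. -/
def V (m : ℕ) (i : Bool) : Set Cantor := {x | x m = i}

/-- The atom of the algebra `𝒜_n` (generated by the sets `V_m^i` with `m ≤ n`) that contains the
point `s`: all `x` with `x(m) = s(m)` for every `m ≤ n`. -/
def atom (n : ℕ) (s : Cantor) : Set Cantor := {x | ∀ m ≤ n, x m = s m}

/-- `φ_m(A) = |λ(A ∩ V_m^0) - λ(A ∩ V_m^1)|`. -/
noncomputable def phi (m : ℕ) (A : Set Cantor) : ℝ :=
  |lam.real (A ∩ V m false) - lam.real (A ∩ V m true)|

/-- `B` is a subalgebra of the Borel algebra of the Cantor space that contains all clopen sets and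
has property (T). -/
structure HasPropertyT (B : BooleanSubalgebra (Set Cantor)) : Prop where
  /-- all members are Borel sets -/
  borel : ∀ A ∈ B, MeasurableSet A
  /-- all clopen sets are members -/
  clopen : ∀ A : Set Cantor, IsClopen A → A ∈ B
  /-- conditions (T.1) and (T.2) -/
  balanced : ∀ F : Finset (Set Cantor), (∀ A ∈ F, A ∈ B) → ∀ ε : ℝ, 0 < ε →
    ∃ n : ℕ, 0 < n ∧ ∀ s : Cantor, ∀ A ∈ F,
      (lam.real (A ∩ atom n s) ≤ ε * lam.real (atom n s) / n ∨
        lam.real (atom n s \ A) ≤ ε * lam.real (atom n s) / n) ∧
      ∀ m : ℕ, n < m → phi m (A ∩ atom n s) ≤ ε * lam.real (atom n s) / m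

/-- The cardinalities of the inclusion-maximal subalgebras with property (T). -/
def maximalTCards : Set Cardinal.{0} :=
  {κ | ∃ B : BooleanSubalgebra (Set Cantor), Maximal HasPropertyT B ∧ #B = κ}

/-- The cardinal `prop_(T)`. -/
noncomputable def propT : Cardinal.{0} := sInf maximalTCards

/-! ### The Grothendieck property and the Grothendieck number -/

/-- A real Banach space is a Grothendieck space if every weak* convergent sequence in its dual is
weakly convergent. -/
def IsGrothendieckSpace (X : Type*) [NormedAddCommGroup X] [NormedSpace ℝ X] : Prop :=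
  ∀ (f : ℕ → StrongDual ℝ X) (g : StrongDual ℝ X),
    (∀ x : X, Tendsto (fun n => f n x) atTop (𝓝 (g x))) →
      ∀ Φ : StrongDual ℝ (StrongDual ℝ X), Tendsto (fun n => Φ (f n)) atTop (𝓝 (Φ g))

/-- The Stone space of a Boolean algebra `A`: the set of all homomorphisms `A → {0, 1}` (that is,
of all ultrafilters of `A`), a subspace of the product space `{0, 1}^A`. -/
def StoneSpace (A : Type*) [BooleanAlgebra A] : Type _ :=
  {u : A → Bool // u ⊤ = true ∧ u ⊥ = false ∧ (∀ a b, u (a ⊔ b) = (u a || u b)) ∧
    ∀ a b, u (a ⊓ b) = (u a && u b)}

/-- The topology of the Stone space: the subspace topology of the product topology. -/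
instance instTopologicalSpaceStoneSpace (A : Type*) [BooleanAlgebra A] :
    TopologicalSpace (StoneSpace A) :=
  instTopologicalSpaceSubtype

/-- The Stone space is compact. -/
instance instCompactSpaceStoneSpace (A : Type*) [BooleanAlgebra A] :
    CompactSpace (StoneSpace A) := by
  have hc : ∀ a : A, Continuous fun u : A → Bool => u a := fun a => continuous_apply a
  have hor : Continuous fun p : Bool × Bool => (p.1 || p.2) := continuous_of_discreteTopology
  have hand : Continuous fun p : Bool × Bool => (p.1 && p.2) := continuous_of_discreteTopology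
  have h : IsClosed {u : A → Bool | u ⊤ = true ∧ u ⊥ = false ∧
      (∀ a b, u (a ⊔ b) = (u a || u b)) ∧ ∀ a b, u (a ⊓ b) = (u a && u b)} := by
    have e : {u : A → Bool | u ⊤ = true ∧ u ⊥ = false ∧
        (∀ a b, u (a ⊔ b) = (u a || u b)) ∧ ∀ a b, u (a ⊓ b) = (u a && u b)} =
        {u | u ⊤ = true} ∩ ({u | u ⊥ = false} ∩ ((⋂ a, ⋂ b, {u | u (a ⊔ b) = (u a || u b)}) ∩
          ⋂ a, ⋂ b, {u | u (a ⊓ b) = (u a && u b)})) := by
      ext u
      simp
    rw [e]
    exact (isClosed_eq (hc ⊤) continuous_const).inter
      ((isClosed_eq (hc ⊥) continuous_const).inter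
        ((isClosed_iInter fun a => isClosed_iInter fun b =>
          isClosed_eq (hc _) (hor.comp ((hc a).prodMk (hc b)))).inter
        (isClosed_iInter fun a => isClosed_iInter fun b =>
          isClosed_eq (hc _) (hand.comp ((hc a).prodMk (hc b))))))
  exact isCompact_iff_compactSpace.1 h.isCompact

/-- A Boolean algebra `A` has the Grothendieck property if the Banach space `C(St(A))` of
continuous real functions on its Stone space is a Grothendieck space. -/
def HasGrothendieckProperty (A : Type*) [BooleanAlgebra A] : Prop :=
  IsGrothendieckSpace C(StoneSpace A, ℝ)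

/-- The cardinalities of the infinite Boolean algebras with the Grothendieck property. -/
def grothendieckCards : Set Cardinal.{0} :=
  {κ | ∃ (A : Type) (_ : BooleanAlgebra A), Infinite A ∧ HasGrothendieckProperty A ∧ #A = κ}

/-- The Grothendieck number `gr`. -/
noncomputable def gr : Cardinal.{0} := sInf grothendieckCards

end Pool.Agent.Lib.MP_3e50fa_lc
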