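import Mathlib

/-!
# Rosenthal's lemma for finitely additive set functions on `ℕ`
-/

namespace Pool.Agent.Lib.MP_3e50fa_lc

/-- Rosenthal's lemma, inductive form. -/
lemma rosenthal_aux (g : ℕ → Set ℕ → ℝ) (h0 : ∀ i s, 0 ≤ g i s)
    (hadd : ∀ i s t, Disjoint s t → g i (s ∪ t) = g i s + g i t) {ε : ℝ} (hε : 0 < ε) :
    ∀ (k : ℕ) (M : Set ℕ), M.Infinite → (∀ i ∈ M, g i M ≤ k * ε) →
      ∃ M' ⊆ M, M'.Infinite ∧ ∀ i ∈ M', g i (M' \ {i}) < ε := by
  have hmono : ∀ i s t, s ⊆ t → g i s ≤ g i t := by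
    intro i s t hst
    have h := hadd i s (t \ s) Set.disjoint_sdiff_right
    rw [Set.union_sdiff_cancel hst] at h
    linarith [h0 i (t \ s)]
  intro k
  induction k with
  | zero =>
    intro M hM hg
    refine ⟨M, subset_rfl, hM, fun i hi => ?_⟩
    have h1 := hg i hi
    have h2 := hmono i (M \ {i}) M Set.sdiff_subset
    simp only [Nat.cast_zero, zero_mul] at h1
    linarith
  | succ k ih =>
    intro M hM hg
    have : Infinite M := hM.to_subtype
    let e : ℕ × ℕ ↪ M := (Denumerable.eqv (ℕ × ℕ)).toEmbedding.trans (Infinite.natEmbedding M)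
    let N : ℕ → Set ℕ := fun p => Set.range fun q => (e (p, q) : ℕ)
    have hNinf : ∀ p, (N p).Infinite := by
      intro p
      apply Set.infinite_range_of_injective
      intro q q' h
      have h1 := e.injective (Subtype.ext h)
      exact (Prod.mk.inj h1).2
    have hNsub : ∀ p, N p ⊆ M := by
      rintro p _ ⟨q, rfl⟩
      exact (e (p, q)).2
    have hNdisj : ∀ p p' x, x ∈ N p → x ∈ N p' → p = p' := by
      rintro p p' x ⟨q, rfl⟩ ⟨q', h⟩
      have h1 := e.injective (Subtype.ext h)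
      exact (Prod.mk.inj h1).1.symm
    by_cases hcase : ∃ p, ∀ i ∈ N p, g i (N p \ {i}) < ε
    · obtain ⟨p, hp⟩ := hcase
      exact ⟨N p, hNsub p, hNinf p, hp⟩
    · push Not at hcase
      choose κ hκ1 hκ2 using hcase
      have hκinj : Function.Injective κ := by
        intro p p' h
        exact hNdisj p p' (κ p) (hκ1 p) (h ▸ hκ1 p')
      have hsub : Set.range κ ⊆ M := by
        rintro _ ⟨p, rfl⟩
        exact hNsub p (hκ1 p)
      obtain ⟨M', hM', hinf, hlt⟩ := ih (Set.range κ) (Set.infinite_range_of_injective hκinj) (by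
        rintro _ ⟨p, rfl⟩
        have hd : Disjoint (Set.range κ) (N p \ {κ p}) := by
          rw [Set.disjoint_left]
          rintro _ ⟨p', rfl⟩ ⟨h1, h2⟩
          apply h2
          have := hNdisj p' p (κ p') (hκ1 p') h1
          rw [this]
          rfl
        have h1 := hadd (κ p) _ _ hd
        have h2 := hmono (κ p) (Set.range κ ∪ N p \ {κ p}) M
          (Set.union_subset hsub (Set.sdiff_subset.trans (hNsub p)))
        have h3 := hg (κ p) (hsub ⟨p, rfl⟩)
        have h4 := hκ2 p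
        push_cast at h3
        linarith)
      exact ⟨M', hM'.trans hsub, hinf, hlt⟩

/-- Rosenthal's lemma. -/
lemma rosenthal (g : ℕ → Set ℕ → ℝ) (h0 : ∀ i s, 0 ≤ g i s)
    (hadd : ∀ i s t, Disjoint s t → g i (s ∪ t) = g i s + g i t)
    (hbd : ∀ i, g i Set.univ ≤ 1) {ε : ℝ} (hε : 0 < ε) :
    ∃ M : Set ℕ, M.Infinite ∧ ∀ i ∈ M, g i (M \ {i}) < ε := by
  obtain ⟨k, hk⟩ := exists_nat_gt (1 / ε)
  obtain ⟨M, -, h1, h2⟩ := rosenthal_aux g h0 hadd hε k Set.univ Set.infinite_univ (by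
    intro i _
    refine (hbd i).trans ?_
    rw [div_lt_iff₀ hε] at hk
    exact hk.le)
  exact ⟨M, h1, h2⟩

end Pool.Agent.Lib.MP_3e50fa_lc
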