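import Pool.Agent.Lib.MP_3e50fa_lc.Stone
import Pool.Agent.Lib.MP_3e50fa_lc.Rosenthal

/-!
# Uniform integrability of weak* null sequences of functionals on `C(St(P(ℕ)))`
-/

open Topology Filter

namespace Pool.Agent.Lib.MP_3e50fa_lc

section General

variable {A : Type*} [BooleanAlgebra A]

/-- Failure of uniform absolute continuity below `c`, with gap `ε`. -/
def Bad (k : ℕ → StrongDual ℝ C(StoneSpace A, ℝ)) (ε : ℝ) (c : A) : Prop :=
  ∀ N : ℕ, ∃ n : ℕ, ∃ a ≤ c, ε + N * ∑ i ∈ Finset.range N, Vr (k i) a < Vr (k n) a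

lemma bad_step (k : ℕ → StrongDual ℝ C(StoneSpace A, ℝ)) (hk : ∀ n, ‖k n‖ ≤ 1) {ε ε' : ℝ}
    (hε' : 0 ≤ ε') (hεε : ε' < ε) {c : A} (h : Bad k ε c) :
    ∃ b ≤ c, ∃ m : ℕ, ε' < Vr (k m) b ∧ Bad k ε' (c \ b) := by
  have hV1 : ∀ n a, Vr (k n) a ≤ 1 := fun n a => (Vr_le _ _).trans (hk n)
  have hη : 0 < ε - ε' := sub_pos.2 hεε
  obtain ⟨L, hL⟩ := exists_nat_gt (1 / (ε - ε'))
  have hLpos : (0 : ℝ) < L := lt_trans (by positivity) hL
  have hLη : 1 < L * (ε - ε') := by rwa [div_lt_iff₀ hη] at hL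
  choose n a hac hlt using h
  obtain ⟨N0, hN0⟩ := exists_nat_gt (L / (ε - ε'))
  have hN0pos : (0 : ℝ) < N0 := lt_trans (by positivity) hN0
  obtain ⟨T, hT0, hTs⟩ : ∃ T : ℕ → ℕ, T 0 = N0 ∧ ∀ j, T (j + 1) = max (T j) (n (T j) + 1) :=
    ⟨fun j => Nat.rec N0 (fun _ t => max t (n t + 1)) j, rfl, fun j => rfl⟩
  have hTmono : Monotone T := monotone_nat_of_le_succ fun j => by rw [hTs]; exact le_max_left _ _
  have hTN0 : ∀ j, N0 ≤ T j := fun j => hT0 ▸ hTmono (Nat.zero_le j)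
  -- smallness
  have hsmall : ∀ i j, i < j → Vr (k (n (T i))) (a (T j)) ≤ (ε - ε') / L := by
    intro i j hij
    have h1 : n (T i) < T j := by
      have : n (T i) + 1 ≤ T (i + 1) := by rw [hTs]; exact le_max_right _ _
      have h2 : T (i + 1) ≤ T j := hTmono hij
      omega
    have h2 : Vr (k (n (T i))) (a (T j)) ≤ ∑ l ∈ Finset.range (T j), Vr (k l) (a (T j)) :=
      Finset.single_le_sum (f := fun l => Vr (k l) (a (T j))) (fun l _ => Vr_nonneg _ _)
        (Finset.mem_range.2 h1)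
    have h3 := hlt (T j)
    have h4 := hV1 (n (T j)) (a (T j))
    have h5 : (N0 : ℝ) ≤ ((T j : ℕ) : ℝ) := by exact_mod_cast hTN0 j
    have h6 : ((T j : ℕ) : ℝ) * ∑ l ∈ Finset.range (T j), Vr (k l) (a (T j)) ≤ 1 := by linarith
    have h7 : (N0 : ℝ) * Vr (k (n (T i))) (a (T j)) ≤ 1 := by
      refine le_trans ?_ h6
      exact mul_le_mul h5 h2 (Vr_nonneg _ _) (by positivity)
    rw [div_lt_iff₀ hη] at hN0
    rw [le_div_iff₀ hLpos]
    have h8 : 0 ≤ Vr (k (n (T i))) (a (T j)) := Vr_nonneg _ _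
    by_contra hcon
    push Not at hcon
    have h9 : (L : ℝ) * Vr (k (n (T i))) (a (T j)) ≤
        N0 * (ε - ε') * Vr (k (n (T i))) (a (T j)) :=
      mul_le_mul_of_nonneg_right hN0.le h8
    nlinarith
  let b : ℕ → A := fun j => a (T j) \ ((Finset.Ioo j L).sup fun l => a (T l))
  have hbc : ∀ j, b j ≤ c := fun j => sdiff_le.trans (hac _)
  have hVb : ∀ j, j < L → ε' < Vr (k (n (T j))) (b j) := by
    intro j hj
    have h1 := Vr_inf_add_sdiff (k (n (T j))) (a (T j)) ((Finset.Ioo j L).sup fun l => a (T l))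
    have h2 : Vr (k (n (T j))) (a (T j) ⊓ ((Finset.Ioo j L).sup fun l => a (T l))) ≤
        ∑ l ∈ Finset.Ioo j L, Vr (k (n (T j))) (a (T l)) :=
      (Vr_mono _ inf_le_right).trans (Vr_finset_sup_le _ _ _)
    have h3 : ∑ l ∈ Finset.Ioo j L, Vr (k (n (T j))) (a (T l)) ≤
        ∑ l ∈ Finset.Ioo j L, (ε - ε') / L :=
      Finset.sum_le_sum fun l hl => hsmall j l (Finset.mem_Ioo.1 hl).1
    have h4 : ∑ l ∈ Finset.Ioo j L, (ε - ε') / L ≤ ε - ε' := by
      rw [Finset.sum_const, Nat.card_Ioo, nsmul_eq_mul, mul_div_assoc', div_le_iff₀ hLpos, mul_comm]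
      refine mul_le_mul_of_nonneg_left ?_ hη.le
      have : L - j - 1 ≤ L := by omega
      exact_mod_cast this
    have h5 := hlt (T j)
    have h6 : 0 ≤ ((T j : ℕ) : ℝ) * ∑ i ∈ Finset.range (T j), Vr (k i) (a (T j)) :=
      mul_nonneg (Nat.cast_nonneg _) (Finset.sum_nonneg fun i _ => Vr_nonneg _ _)
    change ε' < Vr (k (n (T j))) (a (T j) \ ((Finset.Ioo j L).sup fun l => a (T l)))
    linarith
  have hbdisj : ∀ i ∈ Finset.range L, ∀ j ∈ Finset.range L, i ≠ j → Disjoint (b i) (b j) := by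
    have key : ∀ i j, i < j → j < L → Disjoint (b i) (b j) := by
      intro i j hij hj
      have h1 : b j ≤ (Finset.Ioo i L).sup fun l => a (T l) :=
        (sdiff_le : b j ≤ a (T j)).trans
          (Finset.le_sup (f := fun l => a (T l)) (Finset.mem_Ioo.2 ⟨hij, hj⟩))
      exact disjoint_sdiff_self_left.mono_right h1
    intro i hi j hj hij
    rw [Finset.mem_range] at hi hj
    rcases lt_or_gt_of_ne hij with h | h
    · exact key i j h hj
    · exact (key j i h hi).symm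
  -- pigeonhole
  by_contra hcon
  push Not at hcon
  have hcon' : ∀ j, ∃ N : ℕ, j < L → ∀ n' : ℕ, ∀ a' ≤ c \ b j,
      Vr (k n') a' ≤ ε' + N * ∑ i ∈ Finset.range N, Vr (k i) a' := by
    intro j
    by_cases hj : j < L
    · have h1 := hcon (b j) (hbc j) (n (T j)) (hVb j hj)
      unfold Bad at h1
      push Not at h1
      obtain ⟨N, hN⟩ := h1
      exact ⟨N, fun _ => hN⟩
    · exact ⟨0, fun h => absurd h hj⟩
  choose N hN using hcon'
  let M : ℕ := (Finset.range L).sup N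
  have hsum := sum_Vr_le (k (n M)) (Finset.range L) b hbdisj
  have hex : ∃ j < L, Vr (k (n M)) (b j) ≤ 1 / L := by
    by_contra hc
    push Not at hc
    have h1 : ∑ j ∈ Finset.range L, (1 / (L : ℝ)) < ∑ j ∈ Finset.range L, Vr (k (n M)) (b j) := by
      apply Finset.sum_lt_sum_of_nonempty
      · rw [Finset.nonempty_range_iff]
        intro h0
        rw [h0] at hLpos
        simp at hLpos
      · intro j hj
        exact hc j (Finset.mem_range.1 hj)
    rw [Finset.sum_const, Finset.card_range, nsmul_eq_mul, mul_one_div_cancel hLpos.ne'] at h1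
    linarith [hk (n M)]
  obtain ⟨j, hjL, hj⟩ := hex
  have h1 := hN j hjL (n M) (a M \ b j) (sdiff_le_sdiff_right (hac M))
  have h2 := hlt M
  have h3 := Vr_inf_add_sdiff (k (n M)) (a M) (b j)
  have h4 : Vr (k (n M)) (a M ⊓ b j) ≤ Vr (k (n M)) (b j) := Vr_mono _ inf_le_right
  have h5 : N j ≤ M := Finset.le_sup (f := N) (Finset.mem_range.2 hjL)
  have h6 : ∑ i ∈ Finset.range (N j), Vr (k i) (a M \ b j) ≤
      ∑ i ∈ Finset.range M, Vr (k i) (a M) := by
    refine (Finset.sum_le_sum fun i _ => Vr_mono (k i) (sdiff_le : a M \ b j ≤ a M)).trans ?_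
    exact Finset.sum_le_sum_of_subset_of_nonneg (Finset.range_subset_range.2 h5)
      fun i _ _ => Vr_nonneg _ _
  have h7 : (N j : ℝ) * ∑ i ∈ Finset.range (N j), Vr (k i) (a M \ b j) ≤
      M * ∑ i ∈ Finset.range M, Vr (k i) (a M) := by
    refine mul_le_mul (by exact_mod_cast h5) h6 (Finset.sum_nonneg fun i _ => Vr_nonneg _ _)
      (Nat.cast_nonneg _)
  have h8 : 1 / (L : ℝ) < ε - ε' := by rw [div_lt_iff₀ hLpos]; linarith
  linarith

lemma exists_disjoint_of_bad (k : ℕ → StrongDual ℝ C(StoneSpace A, ℝ)) (hk : ∀ n, ‖k n‖ ≤ 1)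
    {ε : ℝ} (hε : 0 < ε) (h : Bad k ε ⊤) :
    ∃ (b : ℕ → A) (m : ℕ → ℕ), (∀ i j, i ≠ j → Disjoint (b i) (b j)) ∧
      ∀ i, ε / 2 < Vr (k (m i)) (b i) := by
  let e : ℕ → ℝ := fun i => ε / 2 * (1 + 1 / ((i : ℝ) + 1))
  have he0 : e 0 = ε := by simp only [e]; norm_num
  have hepos : ∀ i, ε / 2 < e i := by
    intro i
    simp only [e]
    have : 0 < ε / 2 * (1 / ((i : ℝ) + 1)) := by positivity
    linarith
  have hedec : ∀ i, e (i + 1) < e i := by
    intro i
    simp only [e]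
    have h1 : 1 / (((i + 1 : ℕ) : ℝ) + 1) < 1 / ((i : ℝ) + 1) := by
      apply one_div_lt_one_div_of_lt (by positivity)
      push_cast
      linarith
    have h2 : 0 < ε / 2 := by positivity
    nlinarith
  have hstep : ∀ (i : ℕ) (c : {c : A // Bad k (e i) c}),
      ∃ b ≤ c.1, ∃ m : ℕ, e (i + 1) < Vr (k m) b ∧ Bad k (e (i + 1)) (c.1 \ b) := by
    intro i c
    exact bad_step k hk ((by positivity : (0 : ℝ) ≤ ε / 2).trans (hepos (i + 1)).le) (hedec i) c.2
  choose b hb m hm hbad using hstep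
  let c : (i : ℕ) → {c : A // Bad k (e i) c} := fun i =>
    Nat.rec (motive := fun i => {c : A // Bad k (e i) c}) ⟨⊤, by rw [he0]; exact h⟩
      (fun i c => ⟨c.1 \ b i c, hbad i c⟩) i
  have hc : ∀ i, (c (i + 1)).1 = (c i).1 \ b i (c i) := fun i => rfl
  have hanti : Antitone fun i => (c i).1 := antitone_nat_of_succ_le fun i => by
    rw [hc]; exact sdiff_le
  have key : ∀ i j, i < j → Disjoint (b i (c i)) (b j (c j)) := by
    intro i j hij
    have h1 : b j (c j) ≤ (c (i + 1)).1 := (hb j (c j)).trans (hanti hij)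
    rw [hc] at h1
    exact disjoint_sdiff_self_right.mono_right h1
  refine ⟨fun i => b i (c i), fun i => m i (c i), ?_, ?_⟩
  · intro i j hij
    rcases lt_or_gt_of_ne hij with h | h
    · exact key i j h
    · exact (key j i h).symm
  · intro i
    exact (hepos (i + 1)).trans (hm i (c i))

end General

/-- Weak* null sequences of functionals on `C(St(P(ℕ)))` are uniformly absolutely continuous. -/
lemma not_bad (k : ℕ → StrongDual ℝ C(StoneSpace (Set ℕ), ℝ)) (hk : ∀ n, ‖k n‖ ≤ 1)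
    (h0 : ∀ x, Tendsto (fun n => k n x) atTop (𝓝 0)) {ε : ℝ} (hε : 0 < ε) : ¬ Bad k ε ⊤ := by
  intro hbad
  obtain ⟨b, m, hdisj, hV⟩ := exists_disjoint_of_bad k hk hε hbad
  have hex : ∀ i, ∃ c ≤ b i, ε / 6 < |k (m i) (ind c)| := by
    intro i
    by_contra hc
    push Not at hc
    have h1 := Vr_le_three_mul (k (m i)) (b i) hc
    linarith [hV i]
  choose c hcb hc using hex
  have hcdisj : ∀ i j, i ≠ j → Disjoint (c i) (c j) := fun i j hij =>
    (hdisj i j hij).mono (hcb i) (hcb j)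
  set δ : ℝ := ε / 6 with hδ
  have hδpos : 0 < δ := by positivity
  -- apply Rosenthal's lemma
  let U : Set ℕ → Set ℕ := fun s => ⋃ j ∈ s, c j
  have hU : ∀ s t, Disjoint s t → Disjoint (U s) (U t) := by
    intro s t hst
    rw [Set.disjoint_left]
    intro x hx hx'
    simp only [U, Set.mem_iUnion, exists_prop] at hx hx'
    obtain ⟨i, hi, hxi⟩ := hx
    obtain ⟨j, hj, hxj⟩ := hx'
    by_cases hij : i = j
    · subst hij
      exact Set.disjoint_left.1 hst hi hj
    · exact Set.disjoint_left.1 (hcdisj i j hij) hxi hxj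
  have hUunion : ∀ s t, U (s ∪ t) = U s ⊔ U t := by
    intro s t
    simp only [U]
    rw [Set.biUnion_union]
    rfl
  obtain ⟨M, hM, hlt⟩ := rosenthal (fun i s => Vr (k (m i)) (U s)) (fun i s => Vr_nonneg _ _)
    (fun i s t hst => by
      rw [hUunion, Vr_sup _ (hU s t hst)])
    (fun i => (Vr_le _ _).trans (hk _)) (half_pos hδpos)
  have hbig : ∀ i ∈ M, δ / 2 < |k (m i) (ind (U M))| := by
    intro i hi
    have h1 : U M = c i ⊔ U (M \ {i}) := by
      have h2 : M = {i} ∪ (M \ {i}) := by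
        rw [Set.union_sdiff_cancel (Set.singleton_subset_iff.2 hi)]
      have h3 : U {i} = c i := by simp [U]
      rw [← h3, ← hUunion, ← h2]
    have h4 : Disjoint (c i) (U (M \ {i})) := by
      have h3 : U {i} = c i := by simp [U]
      rw [← h3]
      exact hU _ _ Set.disjoint_sdiff_right
    rw [h1, ind_sup h4, map_add]
    have h5 := abs_apply_ind_le (k (m i)) (U (M \ {i}))
    have h6 := hlt i hi
    have h7 := hc i
    have h8 : |k (m i) (ind (c i))| ≤
        |k (m i) (ind (c i)) + k (m i) (ind (U (M \ {i})))| +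
          |k (m i) (ind (U (M \ {i})))| := by
      have := abs_sub (k (m i) (ind (c i)) + k (m i) (ind (U (M \ {i}))))
        (k (m i) (ind (U (M \ {i}))))
      rwa [add_sub_cancel_right] at this
    change Vr (k (m i)) (U (M \ {i})) < δ / 2 at h6
    linarith
  -- the values `m i`, `i ∈ M`, are bounded
  have hev : ∀ᶠ n in atTop, |k n (ind (U M))| < δ / 2 := by
    have h1 := (h0 (ind (U M))).abs
    rw [abs_zero] at h1
    exact h1.eventually_lt_const (half_pos hδpos)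
  obtain ⟨n0, hn0⟩ := eventually_atTop.1 hev
  have hmb : ∀ i ∈ M, m i < n0 := by
    intro i hi
    by_contra hge
    push Not at hge
    linarith [hn0 (m i) hge, hbig i hi]
  obtain ⟨q, hq⟩ := exists_nat_gt (n0 / δ)
  obtain ⟨s, hsM, hscard⟩ := hM.exists_subset_card_eq q
  have h1 : ∀ i ∈ s, δ ≤ ∑ v ∈ Finset.range n0, Vr (k v) (c i) := by
    intro i hi
    have h2 : Vr (k (m i)) (c i) ≤ ∑ v ∈ Finset.range n0, Vr (k v) (c i) :=
      Finset.single_le_sum (f := fun v => Vr (k v) (c i)) (fun v _ => Vr_nonneg _ _)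
        (Finset.mem_range.2 (hmb i (hsM hi)))
    have h3 := abs_apply_ind_le (k (m i)) (c i)
    linarith [hc i]
  have h2 : (q : ℝ) * δ ≤ n0 := by
    calc (q : ℝ) * δ = ∑ i ∈ s, δ := by rw [Finset.sum_const, hscard, nsmul_eq_mul]
      _ ≤ ∑ i ∈ s, ∑ v ∈ Finset.range n0, Vr (k v) (c i) := Finset.sum_le_sum h1
      _ = ∑ v ∈ Finset.range n0, ∑ i ∈ s, Vr (k v) (c i) := Finset.sum_comm
      _ ≤ ∑ v ∈ Finset.range n0, (1 : ℝ) := by
          refine Finset.sum_le_sum fun v _ => ?_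
          exact (sum_Vr_le (k v) s c fun i _ j _ hij => hcdisj i j hij).trans (hk v)
      _ = n0 := by simp
  rw [div_lt_iff₀ hδpos] at hq
  linarith

end Pool.Agent.Lib.MP_3e50fa_lc
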