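import Pool.Agent.Lib.MP_3e50fa_lc.Exhaust

/-!
# The Boolean algebra `P(ℕ)` has the Grothendieck property
-/

open Topology Filter

namespace Pool.Agent.Lib.MP_3e50fa_lc

/-- A form of Helly's theorem. -/
lemma helly {X : Type*} [NormedAddCommGroup X] [NormedSpace ℝ X] (k : ℕ → StrongDual ℝ X)
    (Φ : StrongDual ℝ (StrongDual ℝ X)) (hΦ : ∀ f, Φ f ≤ ‖f‖) {δ δ' : ℝ} (hδ : δ' < δ)
    (h : ∀ n, δ ≤ Φ (k n)) (l : ℕ) : ∃ x : X, ‖x‖ ≤ 1 ∧ ∀ n < l, δ' ≤ k n x := by
  let S : Set (Fin l → ℝ) := {v | ∃ x : X, ‖x‖ ≤ 1 ∧ v = fun n : Fin l => k n x}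
  have hSconv : Convex ℝ S := by
    rintro v ⟨x, hx, rfl⟩ w ⟨y, hy, rfl⟩ a b ha hb hab
    refine ⟨a • x + b • y, ?_, ?_⟩
    · refine (norm_add_le _ _).trans ?_
      rw [norm_smul, norm_smul, Real.norm_of_nonneg ha, Real.norm_of_nonneg hb]
      nlinarith [norm_nonneg x, norm_nonneg y]
    · funext n
      simp
  let p : Fin l → ℝ := fun n => Φ (k n)
  by_cases hp : p ∈ closure S
  · obtain ⟨v, ⟨x, hx, rfl⟩, hdist⟩ := Metric.mem_closure_iff.1 hp (δ - δ') (by linarith)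
    refine ⟨x, hx, fun n hn => ?_⟩
    have h1 := (dist_le_pi_dist p (fun n : Fin l => k n x) ⟨n, hn⟩).trans_lt hdist
    rw [Real.dist_eq] at h1
    have h2 := (abs_lt.1 h1).2
    have h3 : p ⟨n, hn⟩ = Φ (k n) := rfl
    have h4 := h n
    rw [h3] at h2
    simp only at h2
    linarith
  · exfalso
    obtain ⟨f, u, hf, hu⟩ :=
      geometric_hahn_banach_closed_point hSconv.closure isClosed_closure hp
    have hexp : ∀ v : Fin l → ℝ, f v = ∑ i, v i * f (fun j => if i = j then 1 else 0) := by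
      intro v
      have := LinearMap.pi_apply_eq_sum_univ f.toLinearMap v
      simpa using this
    let κ : StrongDual ℝ X := ∑ i : Fin l, f (fun j => if i = j then 1 else 0) • k i
    have hκ : ∀ x, κ x = f (fun n : Fin l => k n x) := by
      intro x
      rw [hexp]
      simp only [κ, _root_.sum_apply, _root_.smul_apply, smul_eq_mul]
      exact Finset.sum_congr rfl fun i _ => mul_comm _ _
    have hlt : ∀ x : X, ‖x‖ ≤ 1 → κ x < u := fun x hx => by
      rw [hκ]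
      exact hf _ (subset_closure ⟨x, hx, rfl⟩)
    have hu0 : 0 ≤ u := by
      have := hlt 0 (by simp)
      rw [map_zero] at this
      exact this.le
    have hnorm : ‖κ‖ ≤ u := by
      refine ContinuousLinearMap.opNorm_le_of_unit_norm hu0 fun x hx => ?_
      rw [Real.norm_eq_abs, abs_le]
      constructor
      · have := hlt (-x) (by simp [hx])
        rw [map_neg] at this
        linarith
      · exact (hlt x hx.le).le
    have h1 : Φ κ = f p := by
      rw [hexp p]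
      simp only [κ, map_sum, map_smul, smul_eq_mul, p]
      exact Finset.sum_congr rfl fun i _ => mul_comm _ _
    have h2 : Φ κ ≤ ‖κ‖ := hΦ κ
    linarith

/-- The quadratic form `Q(x) = Σ_{i<N} |k_i|(x²)`. -/
noncomputable def Qf {A : Type*} [BooleanAlgebra A] (k : ℕ → StrongDual ℝ C(StoneSpace A, ℝ))
    (N : ℕ) (x : C(StoneSpace A, ℝ)) : ℝ := ∑ i ∈ Finset.range N, P (k i) (x * x)

lemma Qf_nonneg {A : Type*} [BooleanAlgebra A] (k : ℕ → StrongDual ℝ C(StoneSpace A, ℝ))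
    (N : ℕ) (x : C(StoneSpace A, ℝ)) : 0 ≤ Qf k N x := Finset.sum_nonneg fun _ _ => P_nonneg _ _

lemma mul_self_nonneg' {A : Type*} [BooleanAlgebra A] (x : C(StoneSpace A, ℝ)) : 0 ≤ x * x :=
  fun u => mul_self_nonneg (x u)

lemma Qf_parallelogram {A : Type*} [BooleanAlgebra A] (k : ℕ → StrongDual ℝ C(StoneSpace A, ℝ))
    (N : ℕ) (x y : C(StoneSpace A, ℝ)) :
    Qf k N (x + y) + Qf k N (x - y) = 2 * Qf k N x + 2 * Qf k N y := by
  unfold Qf
  rw [← Finset.sum_add_distrib, Finset.mul_sum, Finset.mul_sum, ← Finset.sum_add_distrib]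
  refine Finset.sum_congr rfl fun i _ => ?_
  rw [← P_add _ (mul_self_nonneg' _) (mul_self_nonneg' _)]
  have e : (x + y) * (x + y) + (x - y) * (x - y) = (2 : ℝ) • (x * x) + (2 : ℝ) • (y * y) := by
    ext u
    simp only [ContinuousMap.add_apply, ContinuousMap.mul_apply, ContinuousMap.sub_apply,
      ContinuousMap.smul_apply, smul_eq_mul]
    ring
  rw [e, P_add, P_smul, P_smul, abs_of_pos (by norm_num : (0 : ℝ) < 2)]
  · exact smul_nonneg (by norm_num) (mul_self_nonneg' x)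
  · exact smul_nonneg (by norm_num) (mul_self_nonneg' y)

lemma Qf_smul {A : Type*} [BooleanAlgebra A] (k : ℕ → StrongDual ℝ C(StoneSpace A, ℝ))
    (N : ℕ) (t : ℝ) (x : C(StoneSpace A, ℝ)) : Qf k N (t • x) = t ^ 2 * Qf k N x := by
  unfold Qf
  rw [Finset.mul_sum]
  refine Finset.sum_congr rfl fun i _ => ?_
  have e : (t • x) * (t • x) = (t ^ 2) • (x * x) := by
    ext u
    simp only [ContinuousMap.mul_apply, ContinuousMap.smul_apply, smul_eq_mul]
    ring
  rw [e, P_smul, abs_of_nonneg (sq_nonneg t)]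

lemma Qf_le {A : Type*} [BooleanAlgebra A] (k : ℕ → StrongDual ℝ C(StoneSpace A, ℝ))
    (hk : ∀ n, ‖k n‖ ≤ 1) (N : ℕ) {x : C(StoneSpace A, ℝ)} (hx : ‖x‖ ≤ 1) : Qf k N x ≤ N := by
  unfold Qf
  have : ∀ i ∈ Finset.range N, P (k i) (x * x) ≤ 1 := by
    intro i _
    refine (P_le _ _).trans ?_
    have h1 : ‖x * x‖ ≤ 1 := (norm_mul_le _ _).trans (mul_le_one₀ hx (norm_nonneg _) hx)
    exact mul_le_one₀ (hk i) (norm_nonneg _) h1
  refine (Finset.sum_le_sum this).trans ?_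
  simp

/-- Uniform estimate of the functionals by the quadratic form. -/
lemma abs_apply_le_Qf {A : Type*} [BooleanAlgebra A] (k : ℕ → StrongDual ℝ C(StoneSpace A, ℝ))
    (hk : ∀ n, ‖k n‖ ≤ 1) {N : ℕ} {ε : ℝ}
    (hN : ∀ n : ℕ, ∀ a : A, Vr (k n) a ≤ ε + N * ∑ i ∈ Finset.range N, Vr (k i) a)
    {t : ℝ} (ht : 0 < t) {x : C(StoneSpace A, ℝ)} (hx : ‖x‖ ≤ 2) (n : ℕ) :
    |k n x| ≤ t + 2 * (ε + N * (4 / t ^ 2 * Qf k N x)) := by
  -- a clopen set `[a]` between `{x² ≥ t²}` and `{x² > t²/4}`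
  obtain ⟨a, ha1, ha2⟩ := StoneSpace.exists_sep (x * x) (show t ^ 2 / 4 < t ^ 2 by
    have : 0 < t ^ 2 := by positivity
    linarith)
  have hsplit : x = ind a * x + (x - ind a * x) := by abel
  have h1 : |k n (x - ind a * x)| ≤ t := by
    refine ((k n).le_opNorm _).trans ?_
    have h2 : ‖x - ind a * x‖ ≤ t := by
      rw [ContinuousMap.norm_le _ ht.le]
      intro u
      rw [ContinuousMap.sub_apply, ContinuousMap.mul_apply]
      by_cases hu : u.1 a = true
      · rw [ind_of_true hu, one_mul, sub_self, norm_zero]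
        exact ht.le
      · rw [ind_of_not hu, zero_mul, sub_zero, Real.norm_eq_abs]
        by_contra hc
        push Not at hc
        apply hu
        apply ha1
        rw [ContinuousMap.mul_apply]
        nlinarith [abs_mul_abs_self (x u)]
    calc ‖k n‖ * ‖x - ind a * x‖ ≤ 1 * t := mul_le_mul (hk n) h2 (norm_nonneg _) zero_le_one
      _ = t := one_mul t
  have h2 : |k n (ind a * x)| ≤ 2 * Vr (k n) a := by
    refine (apply_mul_le (k n) (ind a) x).trans ?_
    rw [mul_comm]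
    exact mul_le_mul_of_nonneg_right hx (P_nonneg _ _)
  have h3 : ∀ i, Vr (k i) a ≤ 4 / t ^ 2 * P (k i) (x * x) := by
    intro i
    have h4 : ind a ≤ (4 / t ^ 2) • (x * x) := by
      intro u
      change ind a u ≤ (4 / t ^ 2) * (x * x) u
      by_cases hu : u.1 a = true
      · rw [ind_of_true hu]
        have h5 := ha2 u hu
        rw [div_mul_eq_mul_div, le_div_iff₀ (by positivity)]
        linarith
      · rw [ind_of_not hu]
        exact mul_nonneg (by positivity) (mul_self_nonneg' x u)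
    have h5 := P_mono (k i) (ind_nonneg a) h4
    rw [P_smul, abs_of_pos (by positivity)] at h5
    exact h5
  have h4 : ∑ i ∈ Finset.range N, Vr (k i) a ≤ 4 / t ^ 2 * Qf k N x := by
    unfold Qf
    rw [Finset.mul_sum]
    exact Finset.sum_le_sum fun i _ => h3 i
  have h5 : (N : ℝ) * ∑ i ∈ Finset.range N, Vr (k i) a ≤ N * (4 / t ^ 2 * Qf k N x) :=
    mul_le_mul_of_nonneg_left h4 (Nat.cast_nonneg _)
  have h6 := hN n a
  have h7 : |k n x| ≤ |k n (ind a * x)| + |k n (x - ind a * x)| := by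
    have h8 : k n x = k n (ind a * x) + k n (x - ind a * x) := by rw [← map_add, ← hsplit]
    rw [h8]
    exact abs_add_le _ _
  linarith

/-- The key contradiction. -/
lemma no_gap (k : ℕ → StrongDual ℝ C(StoneSpace (Set ℕ), ℝ)) (hk : ∀ n, ‖k n‖ ≤ 1)
    (h0 : ∀ x, Tendsto (fun n => k n x) atTop (𝓝 0)) {δ : ℝ} (hδ : 0 < δ)
    (h : ∀ l : ℕ, ∃ x : C(StoneSpace (Set ℕ), ℝ), ‖x‖ ≤ 1 ∧ ∀ n < l, δ / 2 ≤ k n x) :
    False := by
  -- uniform absolute continuity
  have hbad := not_bad k hk h0 (show (0 : ℝ) < δ / 32 by positivity)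
  unfold Bad at hbad
  push Not at hbad
  obtain ⟨N, hN⟩ := hbad
  have hN' : ∀ n : ℕ, ∀ a : Set ℕ,
      Vr (k n) a ≤ δ / 32 + N * ∑ i ∈ Finset.range N, Vr (k i) a := fun n a => hN n a le_top
  -- the convex sets `T l`
  let T : ℕ → Set C(StoneSpace (Set ℕ), ℝ) := fun l => {x | ‖x‖ ≤ 1 ∧ ∀ n < l, δ / 2 ≤ k n x}
  have hTne : ∀ l, (T l).Nonempty := h
  have hTanti : ∀ l l', l ≤ l' → T l' ⊆ T l := fun l l' hll x hx =>
    ⟨hx.1, fun n hn => hx.2 n (lt_of_lt_of_le hn hll)⟩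
  have hTmid : ∀ l x y, x ∈ T l → y ∈ T l → (1 / 2 : ℝ) • (x + y) ∈ T l := by
    intro l x y hx hy
    refine ⟨?_, fun n hn => ?_⟩
    · rw [norm_smul, Real.norm_of_nonneg (by norm_num)]
      have := norm_add_le x y
      linarith [hx.1, hy.1]
    · rw [map_smul, map_add, smul_eq_mul]
      linarith [hx.2 n hn, hy.2 n hn]
  let d : ℕ → ℝ := fun l => sInf (Qf k N '' T l)
  have hbdd : ∀ l, BddBelow (Qf k N '' T l) := fun l =>
    ⟨0, by rintro _ ⟨x, -, rfl⟩; exact Qf_nonneg _ _ _⟩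
  have hdle : ∀ l x, x ∈ T l → d l ≤ Qf k N x := fun l x hx =>
    csInf_le (hbdd l) ⟨x, hx, rfl⟩
  have hdmono : Monotone d := by
    intro l l' hll
    exact csInf_le_csInf (hbdd l) ((hTne l').image _) (Set.image_mono (hTanti l l' hll))
  have hdbd : ∀ l, d l ≤ N := by
    intro l
    obtain ⟨x, hx⟩ := hTne l
    exact (hdle l x hx).trans (Qf_le k hk N hx.1)
  have hex : ∀ l (s : ℝ), 0 < s → ∃ x ∈ T l, Qf k N x < d l + s := by
    intro l s hs
    obtain ⟨_, ⟨x, hx, rfl⟩, hlt⟩ :=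
      exists_lt_of_csInf_lt ((hTne l).image (Qf k N)) (show d l < d l + s by linarith)
    exact ⟨x, hx, hlt⟩
  -- choose the small parameter `s`
  obtain ⟨s, hs, hsmall⟩ : ∃ s : ℝ, 0 < s ∧
      2 * (N * (4 / (δ / 16) ^ 2 * (6 * s))) ≤ δ / 16 := by
    refine ⟨δ / 16 / (2 * (N * (4 / (δ / 16) ^ 2 * 6)) + 1), by positivity, ?_⟩
    set C : ℝ := 2 * (N * (4 / (δ / 16) ^ 2 * 6)) with hC
    have hC0 : 0 ≤ C := by positivity
    have e : 2 * (N * (4 / (δ / 16) ^ 2 * (6 * (δ / 16 / (C + 1))))) = C * (δ / 16 / (C + 1)) := by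
      rw [hC]; ring
    rw [e, mul_div_assoc', div_le_iff₀ (by positivity)]
    nlinarith
  -- `l0` such that `d` is almost constant afterwards
  obtain ⟨l0, hl0⟩ : ∃ l0, ∀ l, d l ≤ d l0 + s := by
    have hB : BddAbove (Set.range d) := ⟨N, by rintro _ ⟨l, rfl⟩; exact hdbd l⟩
    obtain ⟨_, ⟨l0, rfl⟩, hlt⟩ := exists_lt_of_lt_csSup (Set.range_nonempty d)
      (show sSup (Set.range d) - s < sSup (Set.range d) by linarith)
    exact ⟨l0, fun l => by linarith [le_csSup hB ⟨l, rfl⟩]⟩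
  obtain ⟨z, hz, hQz⟩ := hex l0 s hs
  -- all the functionals are large at `z`
  have hbig : ∀ n, δ / 4 ≤ k n z := by
    intro n
    let l := max l0 (n + 1)
    obtain ⟨w, hw, hQw⟩ := hex l s hs
    have hwT : w ∈ T l0 := hTanti l0 l (le_max_left _ _) hw
    have h1 : Qf k N (z - w) ≤ 6 * s := by
      have h2 := Qf_parallelogram k N z w
      have h3 := hdle l0 _ (hTmid l0 z w hz hwT)
      rw [Qf_smul] at h3
      have h4 := hl0 l
      nlinarith
    have h2 : ‖z - w‖ ≤ 2 := (norm_sub_le _ _).trans (by linarith [hz.1, hw.1])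
    have h3 := abs_apply_le_Qf k hk hN' (show (0 : ℝ) < δ / 16 by positivity) h2 n
    have h4 : 2 * ((N : ℝ) * (4 / (δ / 16) ^ 2 * Qf k N (z - w))) ≤
        2 * (N * (4 / (δ / 16) ^ 2 * (6 * s))) := by
      gcongr
    have h5 : δ / 2 ≤ k n w := hw.2 n (lt_of_lt_of_le (Nat.lt_succ_self n) (le_max_right _ _))
    have h6 : k n z = k n w + k n (z - w) := by rw [← map_add]; congr 1; abel
    have h7 := neg_abs_le (k n (z - w))
    linarith
  have h1 := (h0 z).eventually_lt_const (show (0 : ℝ) < δ / 4 by positivity)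
  obtain ⟨n, hn⟩ := h1.exists
  linarith [hbig n]

/-- A criterion for Grothendieck spaces. -/
lemma isGrothendieckSpace_of (X : Type*) [NormedAddCommGroup X] [NormedSpace ℝ X]
    [CompleteSpace X]
    (H : ∀ k : ℕ → StrongDual ℝ X, (∀ n, ‖k n‖ ≤ 1) →
      (∀ x, Tendsto (fun n => k n x) atTop (𝓝 0)) → ∀ δ : ℝ, 0 < δ →
      (∀ l : ℕ, ∃ x : X, ‖x‖ ≤ 1 ∧ ∀ n < l, δ / 2 ≤ k n x) → False) :
    IsGrothendieckSpace X := by
  intro f g hfg Φ
  -- reduce to null sequences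
  set h : ℕ → StrongDual ℝ X := fun n => f n - g with hh
  have hnull : ∀ x, Tendsto (fun n => h n x) atTop (𝓝 0) := by
    intro x
    have := (hfg x).sub_const (g x)
    rw [sub_self] at this
    exact this
  -- uniform boundedness
  obtain ⟨C, hC⟩ : ∃ C, ∀ n, ‖h n‖ ≤ C := by
    apply banach_steinhaus
    intro x
    obtain ⟨C, hC⟩ := (hnull x).norm.bddAbove_range
    exact ⟨C, fun n => hC ⟨n, rfl⟩⟩
  have hC0 : 0 ≤ C := (norm_nonneg _).trans (hC 0)
  suffices hmain : Tendsto (fun n => Φ (h n)) atTop (𝓝 0) by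
    have h1 := hmain.add_const (Φ g)
    rw [zero_add] at h1
    refine h1.congr fun n => ?_
    rw [← map_add, hh]
    simp
  rw [Metric.tendsto_atTop]
  by_contra hcon
  push Not at hcon
  obtain ⟨δ, hδ, hcon⟩ := hcon
  choose φ hφ1 hφ2 using hcon
  -- rescale
  let c : ℝ := (C + 1)⁻¹
  have hc : 0 < c := by positivity
  let b : ℝ := (‖Φ‖ + 1)⁻¹
  have hb : 0 < b := by positivity
  let σ : ℕ → ℝ := fun n => SignType.sign (Φ (h (φ n)))
  have hσabs : ∀ n, |σ n| ≤ 1 := by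
    intro n
    simp only [σ]
    rcases lt_trichotomy (Φ (h (φ n))) 0 with hneg | hzero | hpos
    · rw [sign_neg hneg]; simp
    · rw [hzero]; simp
    · rw [sign_pos hpos]; simp
  let k : ℕ → StrongDual ℝ X := fun n => (σ n * c) • h (φ n)
  have hφtend : Tendsto φ atTop atTop := tendsto_atTop_mono hφ1 tendsto_id
  have hk : ∀ n, ‖k n‖ ≤ 1 := by
    intro n
    have h1 : ‖k n‖ = |σ n * c| * ‖h (φ n)‖ := norm_smul _ _
    rw [h1, abs_mul, abs_of_pos hc]
    have h2 : c * ‖h (φ n)‖ ≤ 1 := by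
      have : c * ‖h (φ n)‖ ≤ c * (C + 1) :=
        mul_le_mul_of_nonneg_left ((hC _).trans (by linarith)) hc.le
      rwa [inv_mul_cancel₀ (by positivity : C + 1 ≠ 0)] at this
    rw [mul_assoc]
    exact mul_le_one₀ (hσabs n) (by positivity) h2
  have hk0 : ∀ x, Tendsto (fun n => k n x) atTop (𝓝 0) := by
    intro x
    have h1 : Tendsto (fun n => c * |h (φ n) x|) atTop (𝓝 0) := by
      have := (((hnull x).comp hφtend).abs).const_mul c
      rw [abs_zero, mul_zero] at this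
      exact this
    rw [tendsto_zero_iff_abs_tendsto_zero]
    refine squeeze_zero (fun n => abs_nonneg _) (fun n => ?_) h1
    simp only [Function.comp_apply, k, _root_.smul_apply, smul_eq_mul]
    rw [abs_mul, abs_mul, abs_of_pos hc]
    exact mul_le_mul_of_nonneg_right (mul_le_of_le_one_left hc.le (hσabs n)) (abs_nonneg _)
  have hδ' : 0 < b * (c * δ) := by positivity
  refine H k hk hk0 _ hδ' fun l => helly k (b • Φ) ?_ (half_lt_self hδ') ?_ l
  · intro f
    have h1 : (b • Φ) f = b * Φ f := rfl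
    have h2 : b * ‖Φ‖ ≤ b * (‖Φ‖ + 1) := mul_le_mul_of_nonneg_left (by linarith) hb.le
    rw [inv_mul_cancel₀ (by positivity : ‖Φ‖ + 1 ≠ 0)] at h2
    have h3 : Φ f ≤ ‖Φ‖ * ‖f‖ := (le_abs_self _).trans (Φ.le_opNorm f)
    rw [h1]
    calc b * Φ f ≤ b * (‖Φ‖ * ‖f‖) := mul_le_mul_of_nonneg_left h3 hb.le
      _ = (b * ‖Φ‖) * ‖f‖ := by ring
      _ ≤ 1 * ‖f‖ := mul_le_mul_of_nonneg_right h2 (norm_nonneg f)
      _ = ‖f‖ := one_mul _
  · intro n
    have h1 := hφ2 n
    rw [dist_zero_right, Real.norm_eq_abs] at h1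
    have h2 : (b • Φ) (k n) = b * (σ n * c * Φ (h (φ n))) := by
      simp [k]
      ring
    rw [h2]
    have h3 : σ n * Φ (h (φ n)) = |Φ (h (φ n))| := by
      simp only [σ]
      exact sign_mul_self _
    have h4 : σ n * c * Φ (h (φ n)) = c * |Φ (h (φ n))| := by rw [← h3]; ring
    rw [h4]
    gcongr

/-- The Boolean algebra `P(ℕ)` has the Grothendieck property (Grothendieck 1953). -/
theorem hasGrothendieckProperty_setNat : HasGrothendieckProperty (Set ℕ) :=
  isGrothendieckSpace_of _ fun k hk h0 _ hδ h => no_gap k hk h0 hδ h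

end Pool.Agent.Lib.MP_3e50fa_lc
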