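import Pool.Agent.Lib.MP_3e50fa_lc.Defs

/-!
# Maximal subalgebras with property (T): existence and cardinality
-/

open MeasureTheory Cardinal Topology Filter

namespace Pool.Agent.Lib.MP_3e50fa_lc

/-! ### The measure `λ` -/

instance instIsProbabilityMeasureLam : IsProbabilityMeasure lam := by
  unfold lam
  infer_instance

lemma coin_singleton (b : Bool) : coin {b} = 2⁻¹ := by
  cases b <;> simp [coin]

lemma atom_eq_pi (n : ℕ) (s : Cantor) :
    atom n s = Set.pi (Finset.range (n + 1) : Finset ℕ) fun i => {s i} := by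
  ext x
  simp [atom]

lemma lam_atom (n : ℕ) (s : Cantor) : lam (atom n s) = 2⁻¹ ^ (n + 1) := by
  rw [atom_eq_pi, lam, Measure.infinitePi_pi _ (fun i _ => MeasurableSet.singleton _)]
  simp [coin_singleton]

lemma lam_atom_inter_V (n : ℕ) (s : Cantor) {m : ℕ} (hm : n < m) (i : Bool) :
    lam (atom n s ∩ V m i) = 2⁻¹ ^ (n + 2) := by
  have e : atom n s ∩ V m i = Set.pi (insert m (Finset.range (n + 1)) : Finset ℕ)
      fun j => if j = m then {i} else {s j} := by
    ext x
    simp only [atom, V, Set.mem_inter_iff, Set.mem_ofPred_eq, Set.mem_pi, Finset.coe_insert,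
      Set.mem_insert_iff, Finset.mem_coe, Finset.mem_range, Nat.lt_succ_iff]
    constructor
    · rintro ⟨h1, h2⟩ j hj
      by_cases hjm : j = m
      · subst hjm
        simpa using h2
      · rw [if_neg hjm]
        exact h1 j (hj.resolve_left hjm)
    · intro h
      refine ⟨fun j hj => ?_, ?_⟩
      · have h1 := h j (Or.inr hj)
        rw [if_neg (by omega)] at h1
        exact h1
      · have h1 := h m (Or.inl rfl)
        rw [if_pos rfl] at h1
        exact h1
  rw [e, lam, Measure.infinitePi_pi]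
  · rw [Finset.prod_congr rfl (g := fun _ => (2⁻¹ : ENNReal))]
    · rw [Finset.prod_const, Finset.card_insert_of_notMem (by simp; omega), Finset.card_range]
    · intro j _
      split_ifs <;> exact coin_singleton _
  · intro j _
    split_ifs <;> exact MeasurableSet.singleton _

lemma lam_singleton (x : Cantor) : lam {x} = 0 := by
  have h : ∀ n : ℕ, lam {x} ≤ 2⁻¹ ^ n := by
    intro n
    calc lam {x} ≤ lam (atom n x) := measure_mono (by
          rintro y rfl m _
          rfl)
      _ = 2⁻¹ ^ (n + 1) := lam_atom n x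
      _ ≤ 2⁻¹ ^ n := by
          rw [pow_succ]
          exact mul_le_of_le_one_right' (by simp)
  have ht : Tendsto (fun n : ℕ => (2⁻¹ : ENNReal) ^ n) atTop (𝓝 0) :=
    ENNReal.tendsto_pow_atTop_nhds_zero_of_lt_one (by simp)
  exact le_antisymm (ge_of_tendsto' ht h) zero_le

/-! ### Clopen sets -/

lemma exists_atom_subset {U : Set Cantor} (hU : IsOpen U) {x : Cantor} (hx : x ∈ U) :
    ∃ n, atom n x ⊆ U := by
  obtain ⟨I, t, ht, hsub⟩ := isOpen_pi_iff.1 hU x hx
  refine ⟨I.sup id, fun y hy => hsub ?_⟩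
  intro i hi
  have h1 : y i = x i := hy i (Finset.le_sup (f := id) hi)
  rw [h1]
  exact (ht i hi).2

lemma isOpen_atom (n : ℕ) (s : Cantor) : IsOpen (atom n s) := by
  rw [atom_eq_pi]
  exact isOpen_set_pi (Finset.finite_toSet _) fun i _ => isOpen_discrete _

/-- A clopen set depends on finitely many coordinates. -/
lemma clopen_finite_dep {C : Set Cantor} (hC : IsClopen C) :
    ∃ N : ℕ, ∀ n, N ≤ n → ∀ s : Cantor, atom n s ⊆ C ∨ C ∩ atom n s = ∅ := by
  have hex : ∀ x : Cantor, ∃ n, atom n x ⊆ C ∨ atom n x ⊆ Cᶜ := by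
    intro x
    by_cases hx : x ∈ C
    · obtain ⟨n, hn⟩ := exists_atom_subset hC.isOpen hx
      exact ⟨n, Or.inl hn⟩
    · obtain ⟨n, hn⟩ := exists_atom_subset hC.compl.isOpen (show x ∈ Cᶜ from hx)
      exact ⟨n, Or.inr hn⟩
  choose g hg using hex
  obtain ⟨I, -, hI⟩ := isCompact_univ.elim_nhds_subcover (fun x => atom (g x) x)
    (fun x _ => (isOpen_atom _ _).mem_nhds fun m _ => rfl)
  refine ⟨I.sup g, fun n hn s => ?_⟩
  have hs := hI (Set.mem_univ s)
  simp only [Set.mem_iUnion, exists_prop] at hs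
  obtain ⟨x, hxI, hsx⟩ := hs
  have hsub : atom n s ⊆ atom (g x) x := by
    intro y hy m hm
    rw [hy m (hm.trans ((Finset.le_sup hxI).trans hn)), hsx m hm]
  rcases hg x with h | h
  · exact Or.inl (hsub.trans h)
  · right
    ext y
    simp only [Set.mem_inter_iff, Set.mem_empty_iff_false, iff_false, not_and]
    intro hy1 hy2
    exact h (hsub hy2) hy1

/-- The algebra of clopen sets. -/
def clopens : BooleanSubalgebra (Set Cantor) where
  carrier := {A | IsClopen A}
  supClosed' := fun _ ha _ hb => IsClopen.union ha hb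
  infClosed' := fun _ ha _ hb => IsClopen.inter ha hb
  compl_mem' := fun ha => IsClopen.compl ha
  bot_mem' := isClopen_empty

lemma phi_atom {n m : ℕ} (h : n < m) (s : Cantor) : phi m (atom n s) = 0 := by
  unfold phi Measure.real
  rw [lam_atom_inter_V n s h, lam_atom_inter_V n s h, sub_self, abs_zero]

lemma phi_empty (m : ℕ) : phi m ∅ = 0 := by
  simp [phi]

/-- The algebra of clopen sets has property (T). -/
lemma hasPropertyT_clopens : HasPropertyT clopens where
  borel := fun A (hA : IsClopen A) => hA.isOpen.measurableSet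
  clopen := fun A hA => hA
  balanced := by
    intro F hF ε hε
    have hex : ∀ A : Set Cantor, ∃ N : ℕ, A ∈ F →
        ∀ n, N ≤ n → ∀ s : Cantor, atom n s ⊆ A ∨ A ∩ atom n s = ∅ := by
      intro A
      by_cases hA : A ∈ F
      · obtain ⟨N, hN⟩ := clopen_finite_dep (hF A hA)
        exact ⟨N, fun _ => hN⟩
      · exact ⟨0, fun h => absurd h hA⟩
    choose N hN using hex
    refine ⟨F.sup N + 1, Nat.succ_pos _, fun s A hA => ?_⟩
    have hrhs : ∀ m : ℕ, 0 ≤ ε * lam.real (atom (F.sup N + 1) s) / m := fun m => by positivity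
    rcases hN A hA (F.sup N + 1) ((Finset.le_sup hA).trans (Nat.le_succ _)) s with h | h
    · have h1 : A ∩ atom (F.sup N + 1) s = atom (F.sup N + 1) s := Set.inter_eq_right.2 h
      refine ⟨Or.inr ?_, fun m hm => ?_⟩
      · rw [Set.sdiff_eq_empty.2 h, measureReal_empty]
        exact hrhs _
      · rw [h1, phi_atom hm]
        exact hrhs _
    · rw [h]
      refine ⟨Or.inl ?_, fun m _ => ?_⟩
      · rw [measureReal_empty]
        exact hrhs _
      · rw [phi_empty]
        exact hrhs _

/-! ### Existence of maximal algebras -/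

/-- The union of a nonempty chain of subalgebras. -/
def chainUnion (c : Set (BooleanSubalgebra (Set Cantor))) (hc : IsChain (· ≤ ·) c)
    (hne : c.Nonempty) : BooleanSubalgebra (Set Cantor) where
  carrier := {A | ∃ B ∈ c, A ∈ B}
  supClosed' := by
    rintro a ⟨B, hB, ha⟩ b ⟨B', hB', hb⟩
    rcases hc.total hB hB' with h | h
    · exact ⟨B', hB', BooleanSubalgebra.sup_mem (h ha) hb⟩
    · exact ⟨B, hB, BooleanSubalgebra.sup_mem ha (h hb)⟩
  infClosed' := by
    rintro a ⟨B, hB, ha⟩ b ⟨B', hB', hb⟩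
    rcases hc.total hB hB' with h | h
    · exact ⟨B', hB', BooleanSubalgebra.inf_mem (h ha) hb⟩
    · exact ⟨B, hB, BooleanSubalgebra.inf_mem ha (h hb)⟩
  compl_mem' := by
    rintro a ⟨B, hB, ha⟩
    exact ⟨B, hB, BooleanSubalgebra.compl_mem ha⟩
  bot_mem' := by
    obtain ⟨B, hB⟩ := hne
    exact ⟨B, hB, BooleanSubalgebra.bot_mem⟩

lemma exists_mem_of_finset (c : Set (BooleanSubalgebra (Set Cantor))) (hc : IsChain (· ≤ ·) c)
    (hne : c.Nonempty) (F : Finset (Set Cantor)) (hF : ∀ A ∈ F, ∃ B ∈ c, A ∈ B) :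
    ∃ B ∈ c, ∀ A ∈ F, A ∈ B := by
  classical
  induction F using Finset.induction_on with
  | empty =>
    obtain ⟨B, hB⟩ := hne
    exact ⟨B, hB, by simp⟩
  | insert A F _ ih =>
    obtain ⟨B, hB, h1⟩ := ih fun A' hA' => hF A' (Finset.mem_insert_of_mem hA')
    obtain ⟨B', hB', h2⟩ := hF A (Finset.mem_insert_self _ _)
    rcases hc.total hB hB' with h | h
    · refine ⟨B', hB', fun A' hA' => ?_⟩
      rcases Finset.mem_insert.1 hA' with rfl | h3
      · exact h2
      · exact h (h1 A' h3)
    · refine ⟨B, hB, fun A' hA' => ?_⟩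
      rcases Finset.mem_insert.1 hA' with rfl | h3
      · exact h h2
      · exact h1 A' h3

lemma hasPropertyT_chainUnion (c : Set (BooleanSubalgebra (Set Cantor)))
    (hc : IsChain (· ≤ ·) c) (hne : c.Nonempty) (hT : ∀ B ∈ c, HasPropertyT B) :
    HasPropertyT (chainUnion c hc hne) where
  borel := by
    rintro A ⟨B, hB, hA⟩
    exact (hT B hB).borel A hA
  clopen := by
    intro A hA
    obtain ⟨B, hB⟩ := hne
    exact ⟨B, hB, (hT B hB).clopen A hA⟩
  balanced := by
    intro F hF
    obtain ⟨B, hB, h⟩ := exists_mem_of_finset c hc hne F hF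
    exact (hT B hB).balanced F h

/-- There is an inclusion-maximal subalgebra with property (T). -/
theorem exists_maximal : ∃ B, Maximal HasPropertyT B := by
  obtain ⟨B, -, hB⟩ := zorn_le_nonempty₀ {B | HasPropertyT B} (fun c hcs hc B hB =>
    ⟨chainUnion c hc ⟨B, hB⟩, hasPropertyT_chainUnion c hc ⟨B, hB⟩ hcs,
      fun B' hB' A hA => ⟨B', hB', hA⟩⟩) clopens hasPropertyT_clopens
  exact ⟨B, hB⟩

/-! ### Closing an algebra under modifications by null sets -/

/-- All Borel sets that agree with a member of `B` up to a `λ`-null set. -/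
def nullExt (B : BooleanSubalgebra (Set Cantor)) : BooleanSubalgebra (Set Cantor) where
  carrier := {C | MeasurableSet C ∧ ∃ A ∈ B, A =ᵐ[lam] C}
  supClosed' := by
    rintro C ⟨hC, A, hA, h⟩ C' ⟨hC', A', hA', h'⟩
    exact ⟨hC.union hC', A ⊔ A', BooleanSubalgebra.sup_mem hA hA', h.union h'⟩
  infClosed' := by
    rintro C ⟨hC, A, hA, h⟩ C' ⟨hC', A', hA', h'⟩
    exact ⟨hC.inter hC', A ⊓ A', BooleanSubalgebra.inf_mem hA hA', h.inter h'⟩
  compl_mem' := by
    rintro C ⟨hC, A, hA, h⟩
    exact ⟨hC.compl, Aᶜ, BooleanSubalgebra.compl_mem hA, h.compl⟩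
  bot_mem' := ⟨MeasurableSet.empty, ⊥, BooleanSubalgebra.bot_mem, Filter.EventuallyEq.rfl⟩

lemma real_congr {s t : Set Cantor} (h : s =ᵐ[lam] t) : lam.real s = lam.real t :=
  measureReal_congr h

lemma phi_congr {s t : Set Cantor} (h : s =ᵐ[lam] t) (m : ℕ) : phi m s = phi m t := by
  unfold phi
  rw [real_congr (h.inter (Filter.EventuallyEq.refl _ (V m false))),
    real_congr (h.inter (Filter.EventuallyEq.refl _ (V m true)))]

/-- Property (T) only depends on the sets up to null sets. -/
lemma hasPropertyT_nullExt {B : BooleanSubalgebra (Set Cantor)} (hB : HasPropertyT B) :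
    HasPropertyT (nullExt B) where
  borel := fun A hA => hA.1
  clopen := fun A hA => ⟨hA.isOpen.measurableSet, A, hB.clopen A hA, Filter.EventuallyEq.rfl⟩
  balanced := by
    classical
    intro F hF ε hε
    have hex : ∀ C : Set Cantor, ∃ A : Set Cantor, C ∈ F → (A ∈ B ∧ A =ᵐ[lam] C) := by
      intro C
      by_cases hC : C ∈ F
      · obtain ⟨-, A, hA, h⟩ := hF C hC
        exact ⟨A, fun _ => ⟨hA, h⟩⟩
      · exact ⟨∅, fun h => absurd h hC⟩
    choose g hg using hex
    obtain ⟨n, hn, h⟩ := hB.balanced (F.image g) (by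
      intro A hA
      obtain ⟨C, hC, rfl⟩ := Finset.mem_image.1 hA
      exact (hg C hC).1) ε hε
    refine ⟨n, hn, fun s C hC => ?_⟩
    have h1 := h s (g C) (Finset.mem_image_of_mem g hC)
    have h2 := (hg C hC).2
    have h3 : (g C ∩ atom n s : Set Cantor) =ᵐ[lam] (C ∩ atom n s : Set Cantor) :=
      h2.inter (Filter.EventuallyEq.refl _ _)
    have h4 : (atom n s \ g C : Set Cantor) =ᵐ[lam] (atom n s \ C : Set Cantor) :=
      (Filter.EventuallyEq.refl _ (atom n s)).diff h2
    refine ⟨?_, fun m hm => ?_⟩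
    · rw [← real_congr h3, ← real_congr h4]
      exact h1.1
    · rw [← phi_congr h3]
      exact h1.2 m hm

lemma le_nullExt {B : BooleanSubalgebra (Set Cantor)} (hB : HasPropertyT B) : B ≤ nullExt B :=
  fun A hA => ⟨hB.borel A hA, A, hA, Filter.EventuallyEq.rfl⟩

/-- A maximal subalgebra with property (T) contains every null Borel set. -/
lemma mem_of_null {B : BooleanSubalgebra (Set Cantor)} (hB : Maximal HasPropertyT B)
    {N : Set Cantor} (hN : MeasurableSet N) (h0 : lam N = 0) : N ∈ B := by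
  have h1 : nullExt B ≤ B := hB.2 (hasPropertyT_nullExt hB.1) (le_nullExt hB.1)
  apply h1
  refine ⟨hN, ⊥, BooleanSubalgebra.bot_mem, ?_⟩
  exact (ae_eq_empty.2 h0).symm

/-- There are at most continuum many Borel subsets of the Cantor space. -/
lemma card_borel_le : #{A : Set Cantor | MeasurableSet A} ≤ 𝔠 := by
  obtain ⟨b, hb, hgen⟩ := MeasurableSpace.CountablyGenerated.isCountablyGenerated (α := Cantor)
  have h := @MeasurableSpace.cardinal_measurableSet_le_continuum Cantor b
    ((le_aleph0_iff_set_countable.2 hb).trans aleph0_le_continuum)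
  rw [← hgen] at h
  exact h

/-- Every maximal subalgebra with property (T) has the cardinality of the continuum. -/
theorem card_of_maximal {B : BooleanSubalgebra (Set Cantor)} (hB : Maximal HasPropertyT B) :
    #B = 𝔠 := by
  apply le_antisymm
  · refine le_trans ?_ card_borel_le
    exact mk_le_mk_of_subset (s := (B : Set (Set Cantor))) fun A hA => hB.1.borel A hA
  · have h1 : #Cantor = 𝔠 := by
      simp [Cantor]
    rw [← h1]
    refine mk_le_of_injective (f := fun x : Cantor =>
      (⟨{x}, mem_of_null hB (MeasurableSet.singleton x) (lam_singleton x)⟩ : B)) ?_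
    intro x y hxy
    have := congrArg (fun A : B => (A : Set Cantor)) hxy
    simpa using this

end Pool.Agent.Lib.MP_3e50fa_lc
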