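import Mathlib

/-!
# Variation seminorms of functionals on `C(K)`

For a functional `f` on `C(K, ℝ)` and `u ∈ C(K, ℝ)`, let `P f u = ‖f(u · -)‖`.
-/

open Topology Filter

namespace Pool.Agent.Lib.MP_3e50fa_lc

section Var

variable {K : Type*} [TopologicalSpace K] [CompactSpace K]

/-- `P f u` is the norm of the functional `y ↦ f (u * y)`, i.e. `|f|(|u|)`. -/
noncomputable def P (f : StrongDual ℝ C(K, ℝ)) (u : C(K, ℝ)) : ℝ :=
  ‖f.comp (ContinuousLinearMap.mul ℝ C(K, ℝ) u)‖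

lemma P_nonneg (f : StrongDual ℝ C(K, ℝ)) (u : C(K, ℝ)) : 0 ≤ P f u := norm_nonneg _

lemma norm_one_le : ‖(1 : C(K, ℝ))‖ ≤ 1 := by
  rw [ContinuousMap.norm_le _ zero_le_one]
  intro x
  simp

lemma apply_mul_le (f : StrongDual ℝ C(K, ℝ)) (u y : C(K, ℝ)) : |f (u * y)| ≤ P f u * ‖y‖ := by
  have := (f.comp (ContinuousLinearMap.mul ℝ C(K, ℝ) u)).le_opNorm y
  simpa [P] using this

lemma apply_le (f : StrongDual ℝ C(K, ℝ)) (u : C(K, ℝ)) : |f u| ≤ P f u := by
  have h := apply_mul_le f u 1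
  rw [mul_one] at h
  exact h.trans (mul_le_of_le_one_right (P_nonneg _ _) norm_one_le)

lemma P_le_of (f : StrongDual ℝ C(K, ℝ)) (u : C(K, ℝ)) {c : ℝ} (hc : 0 ≤ c)
    (h : ∀ y : C(K, ℝ), ‖y‖ ≤ 1 → f (u * y) ≤ c) : P f u ≤ c := by
  refine ContinuousLinearMap.opNorm_le_of_unit_norm hc ?_
  intro y hy
  simp only [ContinuousLinearMap.coe_comp, Function.comp_apply, ContinuousLinearMap.mul_apply']
  rw [Real.norm_eq_abs, abs_le]
  constructor
  · have := h (-y) (by simp [hy])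
    rw [mul_neg, map_neg] at this
    linarith
  · exact h y hy.le

lemma P_add_le (f : StrongDual ℝ C(K, ℝ)) (u v : C(K, ℝ)) : P f (u + v) ≤ P f u + P f v := by
  unfold P
  rw [map_add, ContinuousLinearMap.comp_add]
  exact norm_add_le _ _

lemma P_smul (f : StrongDual ℝ C(K, ℝ)) (t : ℝ) (u : C(K, ℝ)) : P f (t • u) = |t| * P f u := by
  unfold P
  rw [map_smul, ContinuousLinearMap.comp_smul, norm_smul, Real.norm_eq_abs]

lemma P_mul_le (f : StrongDual ℝ C(K, ℝ)) (u v : C(K, ℝ)) : P f (u * v) ≤ P f u * ‖v‖ := by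
  refine P_le_of f _ (mul_nonneg (P_nonneg _ _) (norm_nonneg _)) ?_
  intro y hy
  rw [mul_assoc]
  refine (le_abs_self _).trans ((apply_mul_le f u (v * y)).trans ?_)
  refine mul_le_mul_of_nonneg_left ?_ (P_nonneg _ _)
  exact (norm_mul_le _ _).trans (mul_le_of_le_one_right (norm_nonneg _) hy)

lemma P_le (f : StrongDual ℝ C(K, ℝ)) (u : C(K, ℝ)) : P f u ≤ ‖f‖ * ‖u‖ := by
  refine P_le_of f _ (by positivity) ?_
  intro y hy
  refine (le_abs_self _).trans ((f.le_opNorm (u * y)).trans ?_)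
  refine mul_le_mul_of_nonneg_left ?_ (norm_nonneg _)
  exact (norm_mul_le _ _).trans (mul_le_of_le_one_right (norm_nonneg _) hy)

lemma exists_of_lt_P (f : StrongDual ℝ C(K, ℝ)) (u : C(K, ℝ)) {r : ℝ} (hr : r < P f u) :
    ∃ y : C(K, ℝ), ‖y‖ ≤ 1 ∧ r < f (u * y) := by
  obtain ⟨y, hy, hry⟩ := ContinuousLinearMap.exists_lt_apply_of_lt_opNorm _ hr
  simp only [ContinuousLinearMap.coe_comp, Function.comp_apply, ContinuousLinearMap.mul_apply',
    Real.norm_eq_abs] at hry
  rcases abs_cases (f (u * y)) with ⟨h, -⟩ | ⟨h, -⟩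
  · exact ⟨y, hy.le, by linarith⟩
  · exact ⟨-y, by simpa using hy.le, by rw [mul_neg, map_neg]; linarith⟩

lemma P_add_ge (f : StrongDual ℝ C(K, ℝ)) {u v : C(K, ℝ)} (hu : 0 ≤ u) (hv : 0 ≤ v) :
    P f u + P f v ≤ P f (u + v) := by
  have hu' : ∀ x, 0 ≤ u x := fun x => hu x
  have hv' : ∀ x, 0 ≤ v x := fun x => hv x
  refine le_of_forall_pos_le_add fun δ hδ => ?_
  -- choose near-optimal `y`, `z`
  obtain ⟨y, hy, hfy⟩ := exists_of_lt_P f u (show P f u - δ / 4 < P f u by linarith)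
  obtain ⟨z, hz, hfz⟩ := exists_of_lt_P f v (show P f v - δ / 4 < P f v by linarith)
  have hy' : ∀ x, |y x| ≤ 1 := fun x => (y.norm_coe_le_norm x).trans hy
  have hz' : ∀ x, |z x| ≤ 1 := fun x => (z.norm_coe_le_norm x).trans hz
  set η : ℝ := δ / (4 * (‖f‖ + 1)) with hη
  have hf1 : 0 < ‖f‖ + 1 := by positivity
  have hηpos : 0 < η := by positivity
  have hden : ∀ x, 0 < u x + v x + η := fun x => by have := hu' x; have := hv' x; linarith
  let w : C(K, ℝ) := ⟨fun x => (u x * y x + v x * z x) / (u x + v x + η), by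
    refine Continuous.div (by fun_prop) (by fun_prop) fun x => (hden x).ne'⟩
  have hnum : ∀ x, |u x * y x + v x * z x| ≤ u x + v x := by
    intro x
    have h1 : |u x * y x| ≤ u x := by
      rw [abs_mul, abs_of_nonneg (hu' x)]
      exact mul_le_of_le_one_right (hu' x) (hy' x)
    have h2 : |v x * z x| ≤ v x := by
      rw [abs_mul, abs_of_nonneg (hv' x)]
      exact mul_le_of_le_one_right (hv' x) (hz' x)
    exact (abs_add_le _ _).trans (add_le_add h1 h2)
  have hw : ‖w‖ ≤ 1 := by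
    rw [ContinuousMap.norm_le _ zero_le_one]
    intro x
    change |(u x * y x + v x * z x) / (u x + v x + η)| ≤ 1
    rw [abs_div, abs_of_pos (hden x), div_le_one (hden x)]
    linarith [hnum x]
  have hdiff : ‖(u * y + v * z) - (u + v) * w‖ ≤ η := by
    rw [ContinuousMap.norm_le _ hηpos.le]
    intro x
    change |(u x * y x + v x * z x) -
      (u x + v x) * ((u x * y x + v x * z x) / (u x + v x + η))| ≤ η
    have hx := hden x
    have e : (u x * y x + v x * z x) -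
      (u x + v x) * ((u x * y x + v x * z x) / (u x + v x + η)) =
      (u x * y x + v x * z x) * (η / (u x + v x + η)) := by
      field_simp
      ring
    rw [e, abs_mul, abs_of_pos (div_pos hηpos hx), mul_div_assoc', div_le_iff₀ hx]
    have := hnum x
    nlinarith
  have h1 : f (u * y + v * z) - f ((u + v) * w) ≤ ‖f‖ * η := by
    rw [← map_sub]
    exact (le_abs_self _).trans ((f.le_opNorm _).trans
      (mul_le_mul_of_nonneg_left hdiff (norm_nonneg _)))
  have h2 : f ((u + v) * w) ≤ P f (u + v) :=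
    (le_abs_self _).trans ((apply_mul_le f (u + v) w).trans
      (mul_le_of_le_one_right (P_nonneg _ _) hw))
  have h3 : ‖f‖ * η ≤ δ / 4 := by
    rw [hη, mul_div_assoc', div_le_div_iff₀ (by positivity) (by norm_num)]
    nlinarith [norm_nonneg f]
  rw [map_add] at h1
  linarith

lemma P_add (f : StrongDual ℝ C(K, ℝ)) {u v : C(K, ℝ)} (hu : 0 ≤ u) (hv : 0 ≤ v) :
    P f (u + v) = P f u + P f v :=
  le_antisymm (P_add_le f u v) (P_add_ge f hu hv)

lemma P_mono (f : StrongDual ℝ C(K, ℝ)) {u v : C(K, ℝ)} (hu : 0 ≤ u) (huv : u ≤ v) :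
    P f u ≤ P f v := by
  have h : v = u + (v - u) := by abel
  rw [h, P_add f hu (sub_nonneg.2 huv)]
  linarith [P_nonneg f (v - u)]

end Var

end Pool.Agent.Lib.MP_3e50fa_lc
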