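import Pool.Agent.Lib.MP_3e50fa_lc.Defs
import Pool.Agent.Lib.MP_3e50fa_lc.Variation

/-!
# Clopen sets of the Stone space and the variation of a functional on them
-/

open Topology Filter

namespace Pool.Agent.Lib.MP_3e50fa_lc

section Stone

variable {A : Type*} [BooleanAlgebra A]

namespace StoneSpace

lemma top (u : StoneSpace A) : u.1 ⊤ = true := u.2.1

lemma bot (u : StoneSpace A) : u.1 ⊥ = false := u.2.2.1

lemma sup (u : StoneSpace A) (a b : A) : u.1 (a ⊔ b) = (u.1 a || u.1 b) := u.2.2.2.1 a b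

lemma inf (u : StoneSpace A) (a b : A) : u.1 (a ⊓ b) = (u.1 a && u.1 b) := u.2.2.2.2 a b

lemma sup_iff (u : StoneSpace A) (a b : A) :
    u.1 (a ⊔ b) = true ↔ u.1 a = true ∨ u.1 b = true := by
  rw [sup, Bool.or_eq_true]

lemma inf_iff (u : StoneSpace A) (a b : A) :
    u.1 (a ⊓ b) = true ↔ u.1 a = true ∧ u.1 b = true := by
  rw [inf, Bool.and_eq_true]

lemma compl_iff (u : StoneSpace A) (a : A) : u.1 aᶜ = true ↔ ¬ u.1 a = true := by
  have h1 := u.sup a aᶜ
  have h2 := u.inf a aᶜ
  rw [sup_compl_eq_top, u.top] at h1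
  rw [inf_compl_eq_bot, u.bot] at h2
  cases ha : u.1 a <;> cases hb : u.1 aᶜ <;> rw [ha, hb] at h1 h2 <;> simp at h1 h2 ⊢

lemma mono (u : StoneSpace A) {a b : A} (h : a ≤ b) (ha : u.1 a = true) : u.1 b = true := by
  rw [← sup_eq_right.2 h, u.sup_iff]
  exact Or.inl ha

lemma finset_sup_iff (u : StoneSpace A) {ι : Type*} (s : Finset ι) (g : ι → A) :
    u.1 (s.sup g) = true ↔ ∃ i ∈ s, u.1 (g i) = true := by
  classical
  induction s using Finset.induction_on with
  | empty => simp [u.bot]
  | insert i s _ ih => simp [Finset.sup_insert, u.sup, ih]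

lemma finset_inf_iff (u : StoneSpace A) {ι : Type*} (s : Finset ι) (g : ι → A) :
    u.1 (s.inf g) = true ↔ ∀ i ∈ s, u.1 (g i) = true := by
  classical
  induction s using Finset.induction_on with
  | empty => simp [u.top]
  | insert i s _ ih => simp [Finset.inf_insert, u.inf, ih]

lemma continuous_eval (a : A) : Continuous fun u : StoneSpace A => u.1 a :=
  (continuous_apply a).comp continuous_subtype_val

/-- The clopen sets `[a]` form a base of the Stone space. -/
lemma exists_basic {U : Set (StoneSpace A)} (hU : IsOpen U) {u : StoneSpace A} (hu : u ∈ U) :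
    ∃ a : A, u.1 a = true ∧ ∀ v : StoneSpace A, v.1 a = true → v ∈ U := by
  classical
  obtain ⟨O, hO, rfl⟩ := isOpen_induced_iff.1 hU
  obtain ⟨I, t, ht, hsub⟩ := isOpen_pi_iff.1 hO u.1 hu
  refine ⟨I.inf fun i => if u.1 i = true then i else iᶜ, ?_, ?_⟩
  · rw [finset_inf_iff]
    intro i _
    split_ifs with h
    · exact h
    · rwa [compl_iff]
  · intro v hv
    rw [finset_inf_iff] at hv
    refine hsub ?_
    intro i hi
    have h1 := hv i hi
    have h2 : v.1 i = u.1 i := by
      split_ifs at h1 with h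
      · rw [h, h1]
      · rw [compl_iff] at h1
        rw [Bool.not_eq_true] at h h1
        rw [h, h1]
    rw [h2]
    exact (ht i hi).2

/-- Separation by clopen sets. -/
lemma exists_sep (y : C(StoneSpace A, ℝ)) {s t : ℝ} (hst : s < t) :
    ∃ a : A, (∀ u : StoneSpace A, t ≤ y u → u.1 a = true) ∧
      ∀ u : StoneSpace A, u.1 a = true → s < y u := by
  classical
  have hF : IsCompact {u : StoneSpace A | t ≤ y u} :=
    (isClosed_le continuous_const y.continuous).isCompact
  have hU : IsOpen {u : StoneSpace A | s < y u} := isOpen_lt continuous_const y.continuous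
  have hex : ∀ u : StoneSpace A, ∃ a : A, t ≤ y u →
      (u.1 a = true ∧ ∀ v : StoneSpace A, v.1 a = true → s < y v) := by
    intro u
    by_cases h : t ≤ y u
    · obtain ⟨a, h1, h2⟩ := exists_basic hU (u := u) (show s < y u by linarith)
      exact ⟨a, fun _ => ⟨h1, h2⟩⟩
    · exact ⟨⊥, fun h' => absurd h' h⟩
  choose g hg using hex
  obtain ⟨I, hI, hcov⟩ := hF.elim_nhds_subcover (fun u => {v : StoneSpace A | v.1 (g u) = true})
    (fun u hu => by
      have ho : IsOpen {v : StoneSpace A | v.1 (g u) = true} :=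
        (isOpen_discrete ({true} : Set Bool)).preimage (continuous_eval (g u))
      exact ho.mem_nhds (hg u hu).1)
  refine ⟨I.sup g, ?_, ?_⟩
  · intro u hu
    rw [finset_sup_iff]
    have := hcov hu
    simpa using this
  · intro u hu
    rw [finset_sup_iff] at hu
    obtain ⟨i, hi, hiu⟩ := hu
    exact (hg i (hI i hi)).2 u hiu

end StoneSpace

/-- The indicator function of the clopen set `[a]`. -/
noncomputable def ind (a : A) : C(StoneSpace A, ℝ) where
  toFun u := if u.1 a = true then 1 else 0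
  continuous_toFun := by
    have : Continuous fun b : Bool => if b = true then (1 : ℝ) else 0 :=
      continuous_of_discreteTopology
    exact this.comp (StoneSpace.continuous_eval a)

lemma ind_apply (a : A) (u : StoneSpace A) : ind a u = if u.1 a = true then 1 else 0 := rfl

lemma ind_of_true {a : A} {u : StoneSpace A} (h : u.1 a = true) : ind a u = 1 := by
  rw [ind_apply, if_pos h]

lemma ind_of_not {a : A} {u : StoneSpace A} (h : ¬ u.1 a = true) : ind a u = 0 := by
  rw [ind_apply, if_neg h]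

lemma ind_nonneg (a : A) : 0 ≤ ind a := by
  intro u
  change (0 : ℝ) ≤ ind a u
  rw [ind_apply]
  split_ifs <;> norm_num

lemma norm_ind_le (a : A) : ‖ind a‖ ≤ 1 := by
  rw [ContinuousMap.norm_le _ zero_le_one]
  intro u
  rw [ind_apply]
  split_ifs <;> norm_num

lemma ind_top : ind (⊤ : A) = 1 := by
  ext u
  rw [ind_of_true u.top]
  rfl

lemma ind_bot : ind (⊥ : A) = 0 := by
  ext u
  rw [ind_of_not (by rw [u.bot]; simp)]
  rfl

lemma ind_inf (a b : A) : ind (a ⊓ b) = ind a * ind b := by
  ext u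
  rw [ContinuousMap.mul_apply, ind_apply, ind_apply, ind_apply, u.inf]
  cases u.1 a <;> cases u.1 b <;> simp

lemma ind_mul_self (a : A) : ind a * ind a = ind a := by
  rw [← ind_inf, inf_idem]

lemma ind_sup {a b : A} (h : Disjoint a b) : ind (a ⊔ b) = ind a + ind b := by
  ext u
  rw [ContinuousMap.add_apply, ind_apply, ind_apply, ind_apply, u.sup]
  have h2 := u.inf a b
  rw [h.eq_bot, u.bot] at h2
  cases ha : u.1 a <;> cases hb : u.1 b <;> simp_all

lemma ind_mono {a b : A} (h : a ≤ b) : ind a ≤ ind b := by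
  intro u
  change ind a u ≤ ind b u
  by_cases ha : u.1 a = true
  · rw [ind_of_true ha, ind_of_true (u.mono h ha)]
  · rw [ind_of_not ha]
    exact ind_nonneg b u

/-- The variation of the functional `f` on the clopen set `[a]`. -/
noncomputable def Vr (f : StrongDual ℝ C(StoneSpace A, ℝ)) (a : A) : ℝ := P f (ind a)

lemma Vr_nonneg (f : StrongDual ℝ C(StoneSpace A, ℝ)) (a : A) : 0 ≤ Vr f a := P_nonneg _ _

lemma Vr_le (f : StrongDual ℝ C(StoneSpace A, ℝ)) (a : A) : Vr f a ≤ ‖f‖ :=
  (P_le f _).trans (mul_le_of_le_one_right (by positivity) (norm_ind_le a))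

lemma Vr_bot (f : StrongDual ℝ C(StoneSpace A, ℝ)) : Vr f ⊥ = 0 := by
  have := P_le f (ind (⊥ : A))
  rw [ind_bot, norm_zero, mul_zero] at this
  exact le_antisymm (by rwa [Vr, ind_bot]) (Vr_nonneg _ _)

lemma Vr_sup (f : StrongDual ℝ C(StoneSpace A, ℝ)) {a b : A} (h : Disjoint a b) :
    Vr f (a ⊔ b) = Vr f a + Vr f b := by
  unfold Vr
  rw [ind_sup h, P_add f (ind_nonneg a) (ind_nonneg b)]

lemma Vr_mono (f : StrongDual ℝ C(StoneSpace A, ℝ)) {a b : A} (h : a ≤ b) : Vr f a ≤ Vr f b :=
  P_mono f (ind_nonneg a) (ind_mono h)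

lemma Vr_inf_add_sdiff (f : StrongDual ℝ C(StoneSpace A, ℝ)) (a b : A) :
    Vr f (a ⊓ b) + Vr f (a \ b) = Vr f a := by
  rw [← Vr_sup f disjoint_inf_sdiff, sup_inf_sdiff]

lemma Vr_sup_le (f : StrongDual ℝ C(StoneSpace A, ℝ)) (a b : A) :
    Vr f (a ⊔ b) ≤ Vr f a + Vr f b := by
  have h : a ⊔ b = a ⊔ (b \ a) := by rw [sup_sdiff_self_right]
  rw [h, Vr_sup f disjoint_sdiff_self_right]
  linarith [Vr_mono f (sdiff_le : b \ a ≤ b)]

lemma Vr_finset_sup_le (f : StrongDual ℝ C(StoneSpace A, ℝ)) {ι : Type*} (s : Finset ι)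
    (g : ι → A) : Vr f (s.sup g) ≤ ∑ i ∈ s, Vr f (g i) := by
  classical
  induction s using Finset.induction_on with
  | empty => simp [Vr_bot]
  | insert i s hi ih =>
    rw [Finset.sup_insert, Finset.sum_insert hi]
    exact (Vr_sup_le f _ _).trans (by linarith)

lemma Vr_finset_sup (f : StrongDual ℝ C(StoneSpace A, ℝ)) {ι : Type*} (s : Finset ι)
    (g : ι → A) (h : ∀ i ∈ s, ∀ j ∈ s, i ≠ j → Disjoint (g i) (g j)) :
    Vr f (s.sup g) = ∑ i ∈ s, Vr f (g i) := by
  classical
  induction s using Finset.induction_on with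
  | empty => simp [Vr_bot]
  | insert i s hi ih =>
    rw [Finset.sup_insert, Finset.sum_insert hi, Vr_sup, ih]
    · intro j hj k hk hjk
      exact h j (Finset.mem_insert_of_mem hj) k (Finset.mem_insert_of_mem hk) hjk
    · rw [Finset.disjoint_sup_right]
      intro j hj
      exact h i (Finset.mem_insert_self _ _) j (Finset.mem_insert_of_mem hj)
        (fun e => hi (e ▸ hj))

lemma sum_Vr_le (f : StrongDual ℝ C(StoneSpace A, ℝ)) {ι : Type*} (s : Finset ι)
    (g : ι → A) (h : ∀ i ∈ s, ∀ j ∈ s, i ≠ j → Disjoint (g i) (g j)) :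
    ∑ i ∈ s, Vr f (g i) ≤ ‖f‖ := by
  rw [← Vr_finset_sup f s g h]
  exact Vr_le f _

lemma abs_apply_ind_le (f : StrongDual ℝ C(StoneSpace A, ℝ)) (a : A) : |f (ind a)| ≤ Vr f a :=
  apply_le f _

/-- If `|f| ≤ t` on all clopen subsets of `[b]`, then the variation of `f` on `[b]` is at most
`3 t`. -/
lemma Vr_le_three_mul (f : StrongDual ℝ C(StoneSpace A, ℝ)) (b : A) {t : ℝ}
    (ht : ∀ c ≤ b, |f (ind c)| ≤ t) : Vr f b ≤ 3 * t := by
  have ht0 : 0 ≤ t := (abs_nonneg _).trans (ht ⊥ bot_le)
  refine le_of_forall_pos_le_add fun δ hδ => ?_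
  refine P_le_of f _ (by positivity) ?_
  intro y hy
  have hy' : ∀ x, |y x| ≤ 1 := fun x => (y.norm_coe_le_norm x).trans hy
  -- choose `N` large
  obtain ⟨N, hN⟩ := exists_nat_gt (2 * (‖f‖ + 1) / δ)
  have hNpos : (0 : ℝ) < N := lt_trans (by positivity) hN
  have hNpos' : 0 < N := by exact_mod_cast hNpos
  -- thresholds
  have hsep : ∀ k : ℕ, ∃ a : A,
      (∀ u : StoneSpace A, -1 + ((k : ℝ) + 1) / N ≤ y u → u.1 a = true) ∧
      ∀ u : StoneSpace A, u.1 a = true → -1 + (k : ℝ) / N < y u := by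
    intro k
    apply StoneSpace.exists_sep
    have : (k : ℝ) / N < ((k : ℝ) + 1) / N := by
      apply div_lt_div_of_pos_right _ hNpos
      linarith
    linarith
  choose a ha1 ha2 using hsep
  -- the step function
  let s : C(StoneSpace A, ℝ) := (N : ℝ)⁻¹ • (∑ k ∈ Finset.range (2 * N), ind (a k)) - 1
  have hs : ‖y - s‖ ≤ 2 / N := by
    rw [ContinuousMap.norm_le _ (by positivity)]
    intro u
    have e1 : (y - s) u = y u + 1 - (N : ℝ)⁻¹ * ∑ k ∈ Finset.range (2 * N), ind (a k) u := by
      simp only [s, ContinuousMap.sub_apply, ContinuousMap.smul_apply, ContinuousMap.one_apply,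
        ContinuousMap.coe_sum, Finset.sum_apply, smul_eq_mul]
      ring
    rw [Real.norm_eq_abs, e1]
    -- let `m` be the floor of `(y u + 1) N`
    have hyu := abs_le.1 (hy' u)
    set r : ℝ := (y u + 1) * N with hr
    have hr0 : 0 ≤ r := mul_nonneg (by linarith) hNpos.le
    have hr2 : r ≤ 2 * N := mul_le_mul_of_nonneg_right (by linarith) hNpos.le
    set m : ℕ := ⌊r⌋₊ with hm
    have hm1 : (m : ℝ) ≤ r := Nat.floor_le hr0
    have hm2 : r < m + 1 := Nat.lt_floor_add_one r
    have hm3 : m ≤ 2 * N := by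
      have : (m : ℝ) ≤ ((2 * N : ℕ) : ℝ) := by push_cast; linarith
      exact_mod_cast this
    have hyr : y u = r / N - 1 := by
      rw [hr, mul_div_assoc, div_self hNpos.ne']; ring
    have hlow : (m : ℝ) ≤ ∑ k ∈ Finset.range (2 * N), ind (a k) u := by
      have h1 : ∑ k ∈ Finset.range m, (1 : ℝ) ≤ ∑ k ∈ Finset.range m, ind (a k) u := by
        apply Finset.sum_le_sum
        intro k hk
        rw [Finset.mem_range] at hk
        rw [ind_of_true (ha1 k u ?_)]
        rw [hyr]
        have : ((k : ℝ) + 1) / N ≤ r / N := by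
          apply div_le_div_of_nonneg_right _ hNpos.le
          have : ((k + 1 : ℕ) : ℝ) ≤ m := by exact_mod_cast hk
          push_cast at this
          linarith
        linarith
      have h2 : ∑ k ∈ Finset.range m, ind (a k) u ≤ ∑ k ∈ Finset.range (2 * N), ind (a k) u := by
        apply Finset.sum_le_sum_of_subset_of_nonneg
        · exact Finset.range_subset_range.2 hm3
        · intro k _ _
          exact ind_nonneg (a k) u
      simp only [Finset.sum_const, Finset.card_range, nsmul_eq_mul, mul_one] at h1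
      linarith
    have hup : ∑ k ∈ Finset.range (2 * N), ind (a k) u ≤ m + 1 := by
      have h1 : ∀ k, ind (a k) u ≤ if k < m + 1 then (1 : ℝ) else 0 := by
        intro k
        by_cases hk : k < m + 1
        · rw [if_pos hk, ind_apply]
          split_ifs <;> norm_num
        · rw [if_neg hk, ind_of_not]
          intro h
          have h3 := ha2 k u h
          rw [hyr] at h3
          have h4 : (k : ℝ) / N < r / N := by linarith
          have h5 : (k : ℝ) < r := (div_lt_div_iff_of_pos_right hNpos).1 h4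
          have h6 : ((m + 1 : ℕ) : ℝ) ≤ k := by exact_mod_cast (not_lt.1 hk)
          push_cast at h6
          linarith
      calc ∑ k ∈ Finset.range (2 * N), ind (a k) u
          ≤ ∑ k ∈ Finset.range (2 * N), (if k < m + 1 then (1 : ℝ) else 0) :=
            Finset.sum_le_sum fun k _ => h1 k
        _ = (((Finset.range (2 * N)).filter (fun k => k < m + 1)).card : ℝ) := by
            rw [Finset.sum_ite]; simp
        _ ≤ ((Finset.range (m + 1)).card : ℝ) := by
            gcongr
            intro k hk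
            simp only [Finset.mem_filter, Finset.mem_range] at hk ⊢
            exact hk.2
        _ = m + 1 := by simp
    have e2 : y u + 1 - (N : ℝ)⁻¹ * ∑ k ∈ Finset.range (2 * N), ind (a k) u =
        (N : ℝ)⁻¹ * (r - ∑ k ∈ Finset.range (2 * N), ind (a k) u) := by
      rw [hr]; field_simp
    rw [e2, abs_mul, abs_of_pos (inv_pos.2 hNpos), div_eq_inv_mul]
    refine mul_le_mul_of_nonneg_left ?_ (inv_pos.2 hNpos).le
    rw [abs_le]
    constructor <;> linarith
  -- estimate
  have h1 : |f (ind b * (y - s))| ≤ δ := by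
    have h2 := apply_mul_le f (ind b) (y - s)
    have h3 : P f (ind b) ≤ ‖f‖ := Vr_le f b
    have h4 : P f (ind b) * ‖y - s‖ ≤ ‖f‖ * (2 / N) :=
      mul_le_mul h3 hs (norm_nonneg _) (by positivity)
    have h5 : ‖f‖ * (2 / N) ≤ δ := by
      rw [mul_div_assoc', div_le_iff₀ hNpos]
      rw [div_lt_iff₀ hδ] at hN
      have : 0 ≤ ‖f‖ := by positivity
      nlinarith
    linarith
  have h2 : |f (ind b * s)| ≤ 3 * t := by
    have e : ind b * s = (N : ℝ)⁻¹ • (∑ k ∈ Finset.range (2 * N), ind (b ⊓ a k)) - ind b := by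
      simp only [s, mul_sub, mul_one, mul_smul_comm, Finset.mul_sum, ind_inf]
    rw [e, map_sub, map_smul, map_sum]
    have h3 : |∑ k ∈ Finset.range (2 * N), f (ind (b ⊓ a k))| ≤ 2 * N * t := by
      refine (Finset.abs_sum_le_sum_abs _ _).trans ?_
      refine (Finset.sum_le_sum fun k _ => ht (b ⊓ a k) inf_le_left).trans ?_
      simp
    have h4 : |(N : ℝ)⁻¹ • ∑ k ∈ Finset.range (2 * N), f (ind (b ⊓ a k))| ≤ 2 * t := by
      rw [smul_eq_mul, abs_mul, abs_of_pos (inv_pos.2 hNpos), inv_mul_le_iff₀ hNpos]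
      linarith
    have h5 := ht b le_rfl
    refine (abs_sub _ _).trans ?_
    linarith
  have e3 : ind b * y = ind b * (y - s) + ind b * s := by rw [← mul_add]; congr 1; abel
  rw [e3, map_add]
  have h3 := le_abs_self (f (ind b * (y - s)))
  have h4 := le_abs_self (f (ind b * s))
  linarith

end Stone

end Pool.Agent.Lib.MP_3e50fa_lc
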